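import Pool.Agent.Helper46.FS.Fcl
import Pool.Agent.Helper1.TP.Goals

/-! Project FS (MP_75608d_al), closing lemma for many tokens: helper1's form `S_FCL` with the
parameters `F`, `P`, `J`, constant 72. -/

namespace Pool.Agent.Helper46.FS

open Equiv Pool.Agent.Helper4.FS

variable {q n : ℕ}

section tokens

variable {P1 P2 : ℕ → Stp q n} {L : ℕ} {s : ℕ} {x : Fin s → Fin n}

open Classical in
lemma pay_cardD {D : ℕ} (hD : ∀ (y : World q n) (l : Fin s),
    (Kof P1 P2 L x y l).card + 2 * L ≤ D) (l : Fin s) (y : World q n) :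
    ((Om (Kof P1 P2 L x y l) y).filter (Pay P1 P2 L x l)).card * (n - D) ≤
      (2 * L * (L + 1) ^ 2) * (Om (Kof P1 P2 L x y l) y).card := by
  classical
  set K := Kof P1 P2 L x y l with hK
  have hc : ∀ i ≤ L, ∀ j ≤ L, n - D ≤ n - (K.card + i + j) := by
    intro i hi j hj
    have h1 : K.card + 2 * L ≤ D := hD y l
    omega
  let I := Finset.range L ×ˢ (Finset.range (L + 1) ×ˢ Finset.range (L + 1))
  have hsub : (Om K y).filter (Pay P1 P2 L x l) ⊆ I.biUnion (fun t =>
      (Om K y).filter (DetEv P1 P2 K (x l) t.1 t.2.1 t.2.2) ∪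
      (Om K y).filter (DetEv P2 P1 K (x l) t.1 t.2.1 t.2.2)) := by
    intro y' hy'
    rw [Finset.mem_filter] at hy'
    obtain ⟨hy', v, hv, i, hi, j, hj, hd⟩ := hy'
    have hKK : Kof P1 P2 L x y' l = K := Kof_agree hy'
    rw [hKK] at hd
    rw [Finset.mem_biUnion]
    refine ⟨(v, i, j), ?_, ?_⟩
    · simp only [I, Finset.mem_product, Finset.mem_range]
      omega
    · rw [Finset.mem_union, Finset.mem_filter, Finset.mem_filter]
      rcases hd with hd | hd
      · exact Or.inl ⟨hy', hd⟩
      · exact Or.inr ⟨hy', hd⟩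
  have hI : I.card = L * (L + 1) ^ 2 := by
    simp only [I, Finset.card_product, Finset.card_range]; ring
  calc ((Om K y).filter (Pay P1 P2 L x l)).card * (n - D)
      ≤ (∑ t ∈ I, (((Om K y).filter (DetEv P1 P2 K (x l) t.1 t.2.1 t.2.2)).card +
        ((Om K y).filter (DetEv P2 P1 K (x l) t.1 t.2.1 t.2.2)).card)) * (n - D) := by
        refine Nat.mul_le_mul ?_ le_rfl
        refine (Finset.card_le_card hsub).trans (Finset.card_biUnion_le.trans ?_)
        exact Finset.sum_le_sum fun t _ => Finset.card_union_le _ _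
    _ ≤ ∑ _t ∈ I, 2 * (Om K y).card := by
        rw [Finset.sum_mul]
        refine Finset.sum_le_sum fun t ht => ?_
        simp only [I, Finset.mem_product, Finset.mem_range] at ht
        have h0 := hc t.2.1 (by omega) t.2.2 (by omega)
        have h1 := det_card P1 P2 K y (x l) t.1 t.2.1 t.2.2
        have h2 := det_card P2 P1 K y (x l) t.1 t.2.1 t.2.2
        have h3 := (Nat.mul_le_mul (le_refl ((Om K y).filter
          (DetEv P1 P2 K (x l) t.1 t.2.1 t.2.2)).card) h0).trans h1
        have h4 := (Nat.mul_le_mul (le_refl ((Om K y).filter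
          (DetEv P2 P1 K (x l) t.1 t.2.1 t.2.2)).card) h0).trans h2
        rw [Nat.add_mul]
        omega
    _ = (2 * L * (L + 1) ^ 2) * (Om K y).card := by
        rw [Finset.sum_const, hI, smul_eq_mul]; ring

lemma seq_stepD {D : ℕ} (hD : ∀ (y : World q n) (l : Fin s),
    (Kof P1 P2 L x y l).card + 2 * L ≤ D) (B : Finset (Fin s)) (l : Fin s) (hl : l ∈ B) :
    (FF P1 P2 L x B (l + 1)).card * (n - D) ≤
      (2 * L * (L + 1) ^ 2) * (FF P1 P2 L x B l).card := by
  classical
  set S := FF P1 P2 L x B l with hS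
  have hS' : FF P1 P2 L x B (l + 1) = S.filter (Pay P1 P2 L x l) := by
    ext y
    rw [Finset.mem_filter, mem_FF, mem_FF]
    constructor
    · intro h
      exact ⟨fun l' h1 h2 => h l' h1 (by omega), h l hl (by omega)⟩
    · rintro ⟨h1, h2⟩ l' h3 h4
      by_cases h5 : l'.val < l.val
      · exact h1 l' h3 h5
      · have : l' = l := Fin.ext (by omega)
        rw [this]; exact h2
  rw [hS']
  have hfib : ∀ y ∈ S, S.filter (fun y' => key P1 P2 L x l y' = key P1 P2 L x l y) =
      Om (Kof P1 P2 L x y l) y := by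
    intro y hy
    ext y'
    rw [Finset.mem_filter, key_eq_iff]
    refine ⟨fun h => h.2, fun h => ⟨?_, h⟩⟩
    rw [mem_FF] at hy ⊢
    intro l' h1 h2
    rw [pay_iff (Om_anti (Kof_mono (by omega)) y h)]
    exact hy l' h1 h2
  have e1 : (S.filter (Pay P1 P2 L x l)).card = ∑ κ ∈ S.image (key P1 P2 L x l),
      ((S.filter (Pay P1 P2 L x l)).filter (fun y' => key P1 P2 L x l y' = κ)).card :=
    Finset.card_eq_sum_card_fiberwise fun y hy =>
      Finset.mem_image_of_mem _ (Finset.mem_filter.1 hy).1
  have e2 : S.card = ∑ κ ∈ S.image (key P1 P2 L x l),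
      (S.filter (fun y' => key P1 P2 L x l y' = κ)).card :=
    Finset.card_eq_sum_card_fiberwise fun y hy => Finset.mem_image_of_mem _ hy
  rw [e1, e2, Finset.sum_mul, Finset.mul_sum]
  refine Finset.sum_le_sum fun κ hκ => ?_
  obtain ⟨y, hy, rfl⟩ := Finset.mem_image.1 hκ
  rw [Finset.filter_filter]
  have e3 : S.filter (fun y' => Pay P1 P2 L x l y' ∧ key P1 P2 L x l y' = key P1 P2 L x l y) =
      (Om (Kof P1 P2 L x y l) y).filter (Pay P1 P2 L x l) := by
    rw [← hfib y hy, Finset.filter_filter]
    refine Finset.filter_congr fun y' _ => ?_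
    exact and_comm
  rw [e3, hfib y hy]
  exact pay_cardD hD l y

lemma seq_prodD {D : ℕ} (hD : ∀ (y : World q n) (l : Fin s),
    (Kof P1 P2 L x y l).card + 2 * L ≤ D) (B : Finset (Fin s)) (l : ℕ) (hl : l ≤ s) :
    (FF P1 P2 L x B l).card * (n - D) ^ (B.filter fun l' => l'.val < l).card ≤
      (2 * L * (L + 1) ^ 2) ^ (B.filter fun l' => l'.val < l).card * Fintype.card (World q n) := by
  classical
  induction l with
  | zero =>
    simp only [Nat.not_lt_zero, Finset.filter_false, Finset.card_empty, pow_zero, mul_one, one_mul]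
    exact Finset.card_le_univ _
  | succ l ih =>
    have ih' := ih (by omega)
    set l0 : Fin s := ⟨l, hl⟩ with hl0
    by_cases hB : l0 ∈ B
    · have e1 : (B.filter fun l' => l'.val < l + 1) =
          insert l0 (B.filter fun l' => l'.val < l) := by
        ext a
        simp only [Finset.mem_filter, Finset.mem_insert]
        constructor
        · rintro ⟨h1, h2⟩
          by_cases h3 : a.val < l
          · exact Or.inr ⟨h1, h3⟩
          · left; exact Fin.ext (by simp [hl0]; omega)
        · rintro (h1 | ⟨h1, h2⟩)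
          · rw [h1]; exact ⟨hB, by simp [hl0]⟩
          · exact ⟨h1, by omega⟩
      have e2 : l0 ∉ (B.filter fun l' => l'.val < l) := by
        simp [hl0]
      rw [e1, Finset.card_insert_of_notMem e2]
      set k := (B.filter fun l' => l'.val < l).card
      have h1 : (FF P1 P2 L x B (l + 1)).card * (n - D) ≤
          (2 * L * (L + 1) ^ 2) * (FF P1 P2 L x B l).card := seq_stepD hD B l0 hB
      calc (FF P1 P2 L x B (l + 1)).card * (n - D) ^ (k + 1)
          = ((FF P1 P2 L x B (l + 1)).card * (n - D)) * (n - D) ^ k := by ring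
        _ ≤ ((2 * L * (L + 1) ^ 2) * (FF P1 P2 L x B l).card) * (n - D) ^ k :=
            Nat.mul_le_mul h1 le_rfl
        _ = (2 * L * (L + 1) ^ 2) * ((FF P1 P2 L x B l).card * (n - D) ^ k) := by ring
        _ ≤ (2 * L * (L + 1) ^ 2) * ((2 * L * (L + 1) ^ 2) ^ k * Fintype.card (World q n)) :=
            Nat.mul_le_mul le_rfl ih'
        _ = (2 * L * (L + 1) ^ 2) ^ (k + 1) * Fintype.card (World q n) := by ring
    · have e1 : (B.filter fun l' => l'.val < l + 1) = (B.filter fun l' => l'.val < l) := by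
        ext a
        simp only [Finset.mem_filter]
        constructor
        · rintro ⟨h1, h2⟩
          refine ⟨h1, ?_⟩
          by_contra h3
          apply hB
          have : a = l0 := Fin.ext (by simp [hl0]; omega)
          rw [← this]; exact h1
        · rintro ⟨h1, h2⟩
          exact ⟨h1, by omega⟩
      have e2 : FF P1 P2 L x B (l + 1) = FF P1 P2 L x B l := seq_skip B l0 hB
      rw [e1, e2]
      exact ih'

open Classical in
/-- **paying tokens are rare** -/
theorem pay_rareD (P1 P2 : ℕ → Stp q n) (L : ℕ) {s : ℕ} (x : Fin s → Fin n) (m : ℕ) {D : ℕ}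
    (hD : ∀ (y : World q n) (l : Fin s), (Kof P1 P2 L x y l).card + 2 * L ≤ D) :
    ((Finset.univ : Finset (World q n)).filter fun y =>
      m ≤ (Finset.univ.filter fun l => Pay P1 P2 L x l y).card).card * (n - D) ^ m ≤
      2 ^ s * (2 * L * (L + 1) ^ 2) ^ m * Fintype.card (World q n) := by
  classical
  have hsub : ((Finset.univ : Finset (World q n)).filter fun y =>
      m ≤ (Finset.univ.filter fun l => Pay P1 P2 L x l y).card) ⊆
      (Finset.powersetCard m (Finset.univ : Finset (Fin s))).biUnion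
        (fun B => FF P1 P2 L x B s) := by
    intro y hy
    rw [Finset.mem_filter] at hy
    obtain ⟨B, hB, hBc⟩ := Finset.exists_subset_card_eq hy.2
    rw [Finset.mem_biUnion]
    refine ⟨B, Finset.mem_powersetCard.2 ⟨Finset.subset_univ _, hBc⟩, ?_⟩
    rw [mem_FF]
    intro l hl _
    exact (Finset.mem_filter.1 (hB hl)).2
  have hB : ∀ B ∈ Finset.powersetCard m (Finset.univ : Finset (Fin s)),
      (FF P1 P2 L x B s).card * (n - D) ^ m ≤
        (2 * L * (L + 1) ^ 2) ^ m * Fintype.card (World q n) := by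
    intro B hB
    have h1 := seq_prodD (P1 := P1) (P2 := P2) (L := L) (x := x) hD B s le_rfl
    have h2 : (B.filter fun l' => l'.val < s) = B :=
      Finset.filter_true_of_mem fun a _ => a.isLt
    rw [h2, (Finset.mem_powersetCard.1 hB).2] at h1
    exact h1
  calc _ ≤ (∑ B ∈ Finset.powersetCard m (Finset.univ : Finset (Fin s)),
        (FF P1 P2 L x B s).card) * (n - D) ^ m :=
        Nat.mul_le_mul ((Finset.card_le_card hsub).trans Finset.card_biUnion_le) le_rfl
    _ ≤ ∑ _B ∈ Finset.powersetCard m (Finset.univ : Finset (Fin s)),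
        (2 * L * (L + 1) ^ 2) ^ m * Fintype.card (World q n) := by
        rw [Finset.sum_mul]
        exact Finset.sum_le_sum hB
    _ = s.choose m * ((2 * L * (L + 1) ^ 2) ^ m * Fintype.card (World q n)) := by
        rw [Finset.sum_const, Finset.card_powersetCard, Finset.card_univ, Fintype.card_fin,
          smul_eq_mul]
    _ ≤ 2 ^ s * ((2 * L * (L + 1) ^ 2) ^ m * Fintype.card (World q n)) :=
        Nat.mul_le_mul (Nat.choose_le_two_pow _ _) le_rfl
    _ = _ := by ring

end tokens

section det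

variable {N s : ℕ} {g : ℕ → Option (Lt q)} {a b : ℕ → Perm (Fin n)} {x : Fin s → Fin n}
  {y : World q n}

open Classical in
/-- the deterministic part with the parameters `F`, `P`, `J` -/
theorem many_payG {F P J : ℕ}
    (hpat : ∀ (I : Finset ℕ) (φ : ℕ → ℕ), I ⊆ Finset.range N → StrictMonoOn φ (I : Set ℕ) →
      (∀ v ∈ I, φ v < N ∧ φ v ≠ v ∧ g v ≠ none ∧ g (φ v) = g v) → I.card ≤ P)
    (hcl : ∀ l, pos (prog a g) y 0 (x l) (2 * N) = pos (prog b g) y 0 (x l) (2 * N))
    (hfa : s * ((Finset.range N).filter fun v => g v ≠ none).card ≤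
      (Finset.univ.biUnion fun l : Fin s => usedSet (prog a g) y 0 (x l) (2 * N)).card + F)
    (hfb : s * ((Finset.range N).filter fun v => g v ≠ none).card ≤
      (Finset.univ.biUnion fun l : Fin s => usedSet (prog b g) y 0 (x l) (2 * N)).card + F)
    (hsp : 3 * F + s * P + J * ((Finset.range N).filter fun v => g v ≠ none).card <
      (((Finset.univ : Finset (Fin s)) ×ˢ Finset.range N).filter fun p => g p.2 ≠ none ∧
        pos (prog a g) y 0 (x p.1) (2 * p.2 + 1) ≠
          pos (prog b g) y 0 (x p.1) (2 * p.2 + 1)).card) :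
    J < 3 * (Finset.univ.filter fun l : Fin s =>
      Pay (prog a g) (prog b g) (2 * N) x l y).card := by
  classical
  rw [← image_eo] at hfa hfb
  set V := (Finset.range N).filter fun v => g v ≠ none with hV
  set PAY := Finset.univ.filter fun l : Fin s => Pay (prog a g) (prog b g) (2 * N) x l y with hPAY
  set Ω := (Finset.univ : Finset (Fin s)) ×ˢ V with hΩ
  have hΩc : Ω.card = s * V.card := by
    rw [hΩ, Finset.card_product, Finset.card_univ, Fintype.card_fin]
  have memΩ : ∀ p : Fin s × ℕ, p ∈ Ω ↔ p.2 < N ∧ g p.2 ≠ none := by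
    intro p
    simp [hΩ, hV]
  set f1 := eo a g y x with hf1
  set f2 := eo b g y x with hf2
  set U1 := Ω.filter fun p => ∀ p' ∈ Ω, f1 p' = f1 p → p' = p with hU1
  set M2 := (Ω.image f2).filter fun o => 2 ≤ (Ω.filter fun p => f2 p = o).card with hM2
  have c1 : 2 * (Ω.image f1).card ≤ U1.card + Ω.card := two_card_image Ω f1
  have c2 : M2.card + (Ω.image f2).card ≤ Ω.card := multi_card Ω f2
  set Q := ((Finset.univ : Finset (Fin s)) ×ˢ Finset.range N).filter fun p => g p.2 ≠ none ∧
        pos (prog a g) y 0 (x p.1) (2 * p.2 + 1) ≠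
          pos (prog b g) y 0 (x p.1) (2 * p.2 + 1) with hQ
  have memQ : ∀ p : Fin s × ℕ, p ∈ Q ↔ p.2 < N ∧ g p.2 ≠ none ∧
      pos (prog a g) y 0 (x p.1) (2 * p.2 + 1) ≠ pos (prog b g) y 0 (x p.1) (2 * p.2 + 1) := by
    intro p
    simp [hQ]
  have QΩ : Q ⊆ Ω := by
    intro p hp
    rw [memΩ]
    rw [memQ] at hp
    exact ⟨hp.1, hp.2.1⟩
  set Q2 := Q.filter fun p => p ∈ U1 ∧ f1 p ∉ M2 with hQ2
  -- size of Q2
  have c3 : Q.card ≤ Q2.card + (Ω \ U1).card + (U1.filter fun p => f1 p ∈ M2).card := by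
    have : Q ⊆ Q2 ∪ (Ω \ U1) ∪ (U1.filter fun p => f1 p ∈ M2) := by
      intro p hp
      by_cases h1 : p ∈ U1
      · by_cases h2 : f1 p ∈ M2
        · exact Finset.mem_union_right _ (Finset.mem_filter.2 ⟨h1, h2⟩)
        · exact Finset.mem_union_left _ (Finset.mem_union_left _
            (Finset.mem_filter.2 ⟨hp, h1, h2⟩))
      · exact Finset.mem_union_left _ (Finset.mem_union_right _
          (Finset.mem_sdiff.2 ⟨QΩ hp, h1⟩))
    refine (Finset.card_le_card this).trans ((Finset.card_union_le _ _).trans ?_)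
    exact Nat.add_le_add (Finset.card_union_le _ _) le_rfl
  have c4 : (Ω \ U1).card + U1.card = Ω.card :=
    Finset.card_sdiff_add_card_eq_card (Finset.filter_subset _ _)
  have c5 : (U1.filter fun p => f1 p ∈ M2).card ≤ M2.card := by
    refine Finset.card_le_card_of_injOn f1 ?_ ?_
    · intro p hp
      exact (Finset.mem_filter.1 hp).2
    · intro p hp p' hp' he
      have h1 := (Finset.mem_filter.1 hp).1
      have h2 := (Finset.mem_filter.1 hp').1
      rw [hU1, Finset.mem_filter] at h1 h2
      exact (h1.2 p' h2.1 he.symm).symm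
  have c6 : s * P + J * V.card < Q2.card := by
    rw [hΩc] at c1 c2 c4
    omega
  -- private pairs
  set A := Q2.filter fun p => ∃ v' < N, f2 (p.1, v') = f1 p with hA
  set Bs := Q2.filter fun p => ¬ ∃ v' < N, f2 (p.1, v') = f1 p with hBs
  have c7 : A.card + Bs.card = Q2.card := Finset.card_filter_add_card_filter_not _
  -- facts about Q2
  have uniq1 : ∀ p ∈ Q2, ∀ l' v', v' < N → f1 (l', v') = f1 p → (l', v') = p := by
    intro p hp l' v' hv' he
    obtain ⟨hpQ, hpU, -⟩ := Finset.mem_filter.1 hp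
    rw [hU1, Finset.mem_filter] at hpU
    refine hpU.2 (l', v') ?_ he
    rw [memΩ]
    refine ⟨hv', ?_⟩
    intro h0
    have h1 : f1 (l', v') = none := by simp [hf1, eo, h0]
    have h2 := (memQ p).1 hpQ
    obtain ⟨m, hm⟩ := Option.ne_none_iff_exists'.1 h2.2.1
    rw [h1] at he
    simp [hf1, eo, hm] at he
  have uniq2 : ∀ p ∈ Q2, ∀ l' v' l'' v'', v' < N → v'' < N → f2 (l', v') = f1 p →
      f2 (l'', v'') = f1 p → (l', v') = (l'', v'') := by
    intro p hp l' v' l'' v'' hv' hv'' he' he''
    obtain ⟨hpQ, hpU, hpM⟩ := Finset.mem_filter.1 hp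
    have h2 := (memQ p).1 hpQ
    obtain ⟨m, hm⟩ := Option.ne_none_iff_exists'.1 h2.2.1
    have hne : ∀ l0 v0, f2 (l0, v0) = f1 p → g v0 ≠ none := by
      intro l0 v0 h3 h0
      have h1 : f2 (l0, v0) = none := by simp [hf2, eo, h0]
      rw [h1] at h3
      simp [hf1, eo, hm] at h3
    have m1 : (l', v') ∈ Ω.filter fun p' => f2 p' = f1 p :=
      Finset.mem_filter.2 ⟨(memΩ _).2 ⟨hv', hne _ _ he'⟩, he'⟩
    have m2 : (l'', v'') ∈ Ω.filter fun p' => f2 p' = f1 p :=
      Finset.mem_filter.2 ⟨(memΩ _).2 ⟨hv'', hne _ _ he''⟩, he''⟩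
    by_contra hcon
    apply hpM
    rw [hM2, Finset.mem_filter]
    refine ⟨Finset.mem_image.2 ⟨(l', v'), (Finset.mem_filter.1 m1).1, he'⟩, ?_⟩
    exact Finset.one_lt_card.2 ⟨_, m1, _, m2, hcon⟩
  -- pairs which are not private: somebody pays
  have payB : ∀ p ∈ Bs, p.1 ∈ PAY ∨ ∃ p' ∈ Ω, f2 p' = f1 p ∧ p'.1 ∈ PAY := by
    intro p hp
    obtain ⟨hp2, hpr⟩ := Finset.mem_filter.1 hp
    push Not at hpr
    obtain ⟨hpQ, -, -⟩ := Finset.mem_filter.1 hp2
    obtain ⟨hpN, hpg, -⟩ := (memQ p).1 hpQ
    obtain ⟨m, hm⟩ := Option.ne_none_iff_exists'.1 hpg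
    obtain ⟨e, he⟩ : ∃ e, f1 p = some e := ⟨_, by rw [hf1]; exact eo_eq_some.2 ⟨m, hm, rfl⟩⟩
    have hu1 := uniq1 p hp2
    have hu2 := uniq2 p hp2
    rw [he] at hu1 hu2 hpr
    by_cases hex : ∃ l' : Fin s, l' < p.1 ∧ ∃ v' < N, f2 (l', v') = some e
    · -- an earlier token crosses `e` with its second path
      obtain ⟨l', hl', v', hv', he'⟩ := hex
      right
      have hg' : g v' ≠ none := by
        intro h0
        have h1 : f2 (l', v') = none := by simp [hf2, eo, h0]
        rw [h1] at he'; simp at he'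
      refine ⟨(l', v'), (memΩ _).2 ⟨hv', hg'⟩, by rw [he, he'], ?_⟩
      rw [hPAY, Finset.mem_filter]
      refine ⟨Finset.mem_univ _, 2 * v' + 1, by omega, 2 * N, le_rfl, 2 * N, le_rfl, Or.inr ?_⟩
      have hK : e ∉ Kof (prog b g) (prog a g) (2 * N) x y l' := by
        refine not_mem_Kof l' ?_ ?_
        · intro l'' hl'' v hv hev
          have := hu2 l' v' l'' v hv' hv he' hev
          simp only [Prod.mk.injEq] at this
          rw [this.1] at hl''
          exact lt_irrefl _ hl''
        · intro l'' hl'' v hv hev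
          have := hu1 l'' v hv hev
          rw [← this] at hl'
          exact lt_irrefl _ (hl'.trans hl'')
      have hd := pay_once (a := b) (b := a) (x := x) l' hv' (hcl l').symm he' hK
        (fun v hv hev => by
          have := hu2 l' v l' v' hv hv' hev he'
          simp only [Prod.mk.injEq, true_and] at this
          exact this)
        (fun v hv hev => by
          have := hu1 l' v hv hev
          rw [← this] at hl'
          exact lt_irrefl _ hl')
      rw [Kof_comm (prog b g) (prog a g)] at hd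
      exact hd
    · push Not at hex
      left
      rw [hPAY, Finset.mem_filter]
      refine ⟨Finset.mem_univ _, 2 * p.2 + 1, by omega, 2 * N, le_rfl, 2 * N, le_rfl, Or.inl ?_⟩
      have hK : e ∉ Kof (prog a g) (prog b g) (2 * N) x y p.1 := by
        refine not_mem_Kof p.1 ?_ ?_
        · intro l'' hl'' v hv hev
          have := hu1 l'' v hv hev
          rw [← this] at hl''
          exact lt_irrefl _ hl''
        · intro l'' hl'' v hv
          exact hex l'' hl'' v hv
      refine pay_once (a := a) (b := b) (x := x) p.1 hpN (hcl p.1) he hK ?_ ?_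
      · intro v hv hev
        have := hu1 p.1 v hv hev
        rw [← this]
      · intro v hv
        exact hpr v hv
  have c8 : Bs.card ≤ PAY.card * V.card + PAY.card * V.card := by
    have h1 : Bs ⊆ (PAY ×ˢ V) ∪ (Bs.filter fun p => ∃ p' ∈ Ω, f2 p' = f1 p ∧ p'.1 ∈ PAY) := by
      intro p hp
      rw [Finset.mem_union]
      rcases payB p hp with h | h
      · left
        rw [Finset.mem_product]
        refine ⟨h, ?_⟩
        have := QΩ (Finset.mem_filter.1 (Finset.mem_filter.1 hp).1).1
        rw [hΩ, Finset.mem_product] at this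
        exact this.2
      · right
        exact Finset.mem_filter.2 ⟨hp, h⟩
    refine (Finset.card_le_card h1).trans ((Finset.card_union_le _ _).trans ?_)
    refine Nat.add_le_add (by rw [Finset.card_product]) ?_
    rw [← Finset.card_product]
    let c : Fin s × ℕ → Fin s × ℕ := fun p =>
      if h : ∃ p' ∈ Ω, f2 p' = f1 p ∧ p'.1 ∈ PAY then h.choose else p
    have hc : ∀ p, (∃ p' ∈ Ω, f2 p' = f1 p ∧ p'.1 ∈ PAY) →
        c p ∈ Ω ∧ f2 (c p) = f1 p ∧ (c p).1 ∈ PAY := by
      intro p hp
      have : c p = hp.choose := by simp only [c]; rw [dif_pos hp]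
      rw [this]
      exact hp.choose_spec
    refine Finset.card_le_card_of_injOn c ?_ ?_
    · intro p hp
      obtain ⟨h2, h3⟩ := Finset.mem_filter.1 hp
      obtain ⟨h4, -, h5⟩ := hc p h3
      rw [Finset.mem_coe, Finset.mem_product]
      rw [hΩ, Finset.mem_product] at h4
      exact ⟨h5, h4.2⟩
    · intro p hp p' hp' he
      obtain ⟨h2, h3⟩ := Finset.mem_filter.1 hp
      obtain ⟨h2', h3'⟩ := Finset.mem_filter.1 hp'
      obtain ⟨-, h4, -⟩ := hc p h3
      obtain ⟨-, h4', -⟩ := hc p' h3'
      have h6 : f1 p = f1 p' := by rw [← h4, ← h4', he]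
      have h7 := (memQ p').1 (Finset.mem_filter.1 (Finset.mem_filter.1 h2').1).1
      have := uniq1 p (Finset.mem_filter.1 h2).1 p'.1 p'.2 h7.1 h6.symm
      exact this.symm
  -- private pairs of tokens which do not pay
  have privI : ∀ l : Fin s, l ∉ PAY →
      (A.filter fun p => p.1 = l).card ≤ P := by
    intro l hl
    have hnp : ∀ v < 2 * N, ∀ i ≤ 2 * N, ∀ j ≤ 2 * N,
        ¬ DetEv (prog a g) (prog b g) (Kof (prog a g) (prog b g) (2 * N) x y l) (x l) v i j y := by
      intro v hv i hi j hj hd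
      apply hl
      rw [hPAY, Finset.mem_filter]
      exact ⟨Finset.mem_univ _, v, hv, i, hi, j, hj, Or.inl hd⟩
    set I := (A.filter fun p => p.1 = l).image Prod.snd with hI
    have hIc : I.card = (A.filter fun p => p.1 = l).card := by
      refine Finset.card_image_of_injOn ?_
      intro p hp p' hp' he
      have h1 := (Finset.mem_filter.1 hp).2
      have h2 := (Finset.mem_filter.1 hp').2
      exact Prod.ext (h1.trans h2.symm) he
    have hIA : ∀ v ∈ I, (l, v) ∈ A := by
      intro v hv
      obtain ⟨p, hp, rfl⟩ := Finset.mem_image.1 hv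
      obtain ⟨h1, h2⟩ := Finset.mem_filter.1 hp
      rw [← h2]; exact h1
    have hex : ∀ v ∈ I, ∃ v' < N, f2 (l, v') = f1 (l, v) := fun v hv =>
      (Finset.mem_filter.1 (hIA v hv)).2
    let φ : ℕ → ℕ := fun v => if h : ∃ v' < N, f2 (l, v') = f1 (l, v) then h.choose else 0
    have hφ : ∀ v ∈ I, φ v < N ∧ f2 (l, φ v) = f1 (l, v) := by
      intro v hv
      have h1 := hex v hv
      have : φ v = h1.choose := by simp only [φ]; rw [dif_pos h1]
      rw [this]
      exact h1.choose_spec
    -- data of an element of I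
    have dat : ∀ v ∈ I, ∃ m m', v < N ∧ g v = some m ∧ g (φ v) = some m' ∧
        pos (prog a g) y 0 (x l) (2 * v + 1) ≠ pos (prog b g) y 0 (x l) (2 * v + 1) ∧
        ed y m' (pos (prog b g) y 0 (x l) (2 * φ v + 1)) =
          ed y m (pos (prog a g) y 0 (x l) (2 * v + 1)) ∧
        (∀ l' v', v' < N → f1 (l', v') =
          some (ed y m (pos (prog a g) y 0 (x l) (2 * v + 1))) → (l', v') = (l, v)) ∧
        (∀ l' v', v' < N → f2 (l', v') =
          some (ed y m (pos (prog a g) y 0 (x l) (2 * v + 1))) → (l', v') = (l, φ v)) ∧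
        ed y m (pos (prog a g) y 0 (x l) (2 * v + 1)) ∉
          Kof (prog a g) (prog b g) (2 * N) x y l := by
      intro v hv
      have hvA := hIA v hv
      have hv2 := (Finset.mem_filter.1 hvA).1
      obtain ⟨hvN, hvg, hvs⟩ := (memQ _).1 (Finset.mem_filter.1 hv2).1
      obtain ⟨m, hm⟩ := Option.ne_none_iff_exists'.1 hvg
      simp only at hvN hm hvs
      have h1 : f1 (l, v) = some (ed y m (pos (prog a g) y 0 (x l) (2 * v + 1))) := by
        rw [hf1]; exact eo_eq_some.2 ⟨m, hm, rfl⟩
      obtain ⟨hφ1, hφ2⟩ := hφ v hv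
      have h2 := hφ2
      rw [h1, hf2] at h2
      obtain ⟨m', hm', hed⟩ := eo_eq_some.1 h2
      have hu1 := uniq1 _ hv2
      have hu2 := uniq2 _ hv2
      rw [h1] at hu1 hu2
      have hu2' : ∀ l' v', v' < N → f2 (l', v') =
          some (ed y m (pos (prog a g) y 0 (x l) (2 * v + 1))) → (l', v') = (l, φ v) := by
        intro l' v' hv' he'
        exact hu2 l' v' l (φ v) hv' hφ1 he' (by rw [hφ2, h1])
      refine ⟨m, m', hvN, hm, hm', hvs, hed, hu1, hu2', ?_⟩
      refine not_mem_Kof l ?_ ?_
      · intro l'' hl'' v'' hv'' hev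
        have := hu1 l'' v'' hv'' hev
        simp only [Prod.mk.injEq] at this
        rw [this.1] at hl''
        exact lt_irrefl _ hl''
      · intro l'' hl'' v'' hv'' hev
        have := hu2' l'' v'' hv'' hev
        simp only [Prod.mk.injEq] at this
        rw [this.1] at hl''
        exact lt_irrefl _ hl''
    -- same letter
    have slet : ∀ v ∈ I, g (φ v) = g v := by
      intro v hv
      obtain ⟨m, m', hvN, hm, hm', hvs, hed, hu1, hu2, hK⟩ := dat v hv
      obtain ⟨hφ1, hφ2⟩ := hφ v hv
      obtain ⟨j, σ⟩ := m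
      obtain ⟨j', σ'⟩ := m'
      have hjj : j' = j := by
        have := congrArg Prod.fst hed
        simpa [ed] using this
      subst hjj
      rw [hm, hm']
      by_contra hne
      have hσ : σ' ≠ σ := fun h => hne (by rw [h])
      obtain ⟨h1, -⟩ := opp_dir hσ hed
      refine hnp (2 * v + 1) (by omega) (2 * v + 2) (by omega) (2 * φ v + 1) (by omega) ?_
      refine det_prog hm (by omega) hK ?_ ?_ ?_
      · intro v' hv' hne' m'' hm'' heq
        have := hu1 l v' (by omega) (by rw [hf1]; exact eo_eq_some.2 ⟨m'', hm'', heq⟩)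
        simp only [Prod.mk.injEq, true_and] at this
        exact hne' this
      · intro v' hv' m'' hm'' heq
        have := hu2 l v' (by omega) (by rw [hf2]; exact eo_eq_some.2 ⟨m'', hm'', heq⟩)
        simp only [Prod.mk.injEq, true_and] at this
        omega
      · rw [pos_odd_some hm, h1]
    have spos : ∀ v ∈ I, pos (prog b g) y 0 (x l) (2 * φ v + 1) =
        pos (prog a g) y 0 (x l) (2 * v + 1) := by
      intro v hv
      obtain ⟨m, m', hvN, hm, hm', hvs, hed, -⟩ := dat v hv
      have h1 := slet v hv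
      rw [hm, hm'] at h1
      obtain rfl : m' = m := Option.some_injective _ h1
      exact same_dir hed
    have hmono : StrictMonoOn φ (I : Set ℕ) := by
      intro v hv w hw hvw
      have hv' : v ∈ I := hv
      have hw' : w ∈ I := hw
      obtain ⟨m, m', hvN, hm, hm', hvs, hed, hu1, hu2, hK⟩ := dat v hv'
      obtain ⟨k, k', hwN, hk, -⟩ := dat w hw'
      obtain ⟨hφ1, hφ2⟩ := hφ v hv'
      obtain ⟨hψ1, hψ2⟩ := hφ w hw'
      by_contra hcon
      have hle : φ w ≤ φ v := not_lt.1 hcon
      have hne : φ w ≠ φ v := by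
        intro h
        have h1 : f1 (l, w) = f1 (l, v) := by rw [← hφ2, ← hψ2, h]
        have h2 : f1 (l, v) = some (ed y m (pos (prog a g) y 0 (x l) (2 * v + 1))) := by
          rw [hf1]; exact eo_eq_some.2 ⟨m, hm, rfl⟩
        have := hu1 l w hwN (by rw [h1, h2])
        simp only [Prod.mk.injEq, true_and] at this
        omega
      have hlt : φ w < φ v := lt_of_le_of_ne hle hne
      refine hnp (2 * v + 1) (by omega) (2 * w + 1) (by omega) (2 * φ w + 1) (by omega) ?_
      refine det_prog hm (by omega) hK ?_ ?_ (spos w hw').symm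
      · intro v' hv' hne' m'' hm'' heq
        have := hu1 l v' (by omega) (by rw [hf1]; exact eo_eq_some.2 ⟨m'', hm'', heq⟩)
        simp only [Prod.mk.injEq, true_and] at this
        exact hne' this
      · intro v' hv' m'' hm'' heq
        have := hu2 l v' (by omega) (by rw [hf2]; exact eo_eq_some.2 ⟨m'', hm'', heq⟩)
        simp only [Prod.mk.injEq, true_and] at this
        omega
    rw [← hIc]
    refine hpat I φ ?_ hmono ?_
    · intro v hv
      obtain ⟨m, m', hvN, -⟩ := dat v hv
      exact Finset.mem_range.2 hvN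
    · intro v hv
      obtain ⟨m, m', hvN, hm, hm', hvs, hed, -⟩ := dat v hv
      refine ⟨(hφ v hv).1, ?_, by rw [hm]; simp, slet v hv⟩
      intro h
      apply hvs
      have := spos v hv
      rw [h] at this
      exact this.symm
  have c9 : A.card ≤ PAY.card * V.card + s * P := by
    have e1 : A.card = ∑ l : Fin s, (A.filter fun p => p.1 = l).card :=
      Finset.card_eq_sum_card_fiberwise fun p _ => Finset.mem_univ _
    have e2 : ∀ l : Fin s, (A.filter fun p => p.1 = l).card ≤
        (if l ∈ PAY then V.card else 0) + P := by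
      intro l
      by_cases hl : l ∈ PAY
      · rw [if_pos hl]
        have : (A.filter fun p => p.1 = l).card ≤ V.card := by
          refine Finset.card_le_card_of_injOn Prod.snd ?_ ?_
          · intro p hp
            have h1 := QΩ (Finset.mem_filter.1
              (Finset.mem_filter.1 (Finset.mem_filter.1 hp).1).1).1
            rw [hΩ, Finset.mem_product] at h1
            exact h1.2
          · intro p hp p' hp' he
            have h1 := (Finset.mem_filter.1 hp).2
            have h2 := (Finset.mem_filter.1 hp').2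
            exact Prod.ext (h1.trans h2.symm) he
        omega
      · rw [if_neg hl]
        have := privI l hl
        omega
    rw [e1]
    refine (Finset.sum_le_sum fun l _ => e2 l).trans ?_
    rw [Finset.sum_add_distrib, Finset.sum_const, Finset.card_univ, Fintype.card_fin,
      smul_eq_mul, ← Finset.sum_filter, Finset.sum_const, smul_eq_mul]
    have : (Finset.univ.filter fun l => l ∈ PAY) = PAY := by
      ext l; simp
    rw [this]
  have c10 : J * V.card < (3 * PAY.card) * V.card := by
    have e : (3 * PAY.card) * V.card = 3 * (PAY.card * V.card) := by ring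
    rw [e]
    omega
  exact Nat.lt_of_mul_lt_mul_right c10

end det

lemma card_used_prog (a : ℕ → Perm (Fin n)) (g : ℕ → Option (Lt q)) (y : World q n) (x0 : Fin n)
    (N : ℕ) : (usedSet (prog a g) y 0 x0 (2 * N)).card ≤ N := by
  classical
  have h : (usedSet (prog a g) y 0 x0 (2 * N)).image some ⊆
      (Finset.range N).image fun v => (g v).map fun m =>
        ed y m (pos (prog a g) y 0 x0 (2 * v + 1)) := by
    intro o ho
    obtain ⟨e, he, rfl⟩ := Finset.mem_image.1 ho
    obtain ⟨v, hv, m, hm, he⟩ := used_iff.1 he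
    refine Finset.mem_image.2 ⟨v, Finset.mem_range.2 hv, ?_⟩
    rw [hm, Option.map_some, he]
  rw [← Finset.card_image_of_injective _ (Option.some_injective _)]
  exact (Finset.card_le_card h).trans (Finset.card_image_le.trans (by simp))

lemma Kof_card_prog (a b : ℕ → Perm (Fin n)) (g : ℕ → Option (Lt q)) (N : ℕ) {s : ℕ}
    (x : Fin s → Fin n) (y : World q n) (l : ℕ) :
    (Kof (prog a g) (prog b g) (2 * N) x y l).card ≤ l * (2 * N) := by
  unfold Kof
  refine (Finset.card_biUnion_le_card_mul _ _ (2 * N) ?_).trans (Nat.mul_le_mul ?_ le_rfl)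
  · intro i _
    refine (Finset.card_union_le _ _).trans ?_
    have h1 := card_used_prog a g y (x i) N
    have h2 := card_used_prog b g y (x i) N
    omega
  · have : ((Finset.univ.filter fun l' : Fin s => l'.val < l)).card ≤ (Finset.range l).card := by
      refine Finset.card_le_card_of_injOn (fun l' => l'.val) ?_ ?_
      · intro a ha
        simpa using ha
      · intro a _ b _ h
        exact Fin.ext h
    simpa using this

lemma crossed_ncard (a : ℕ → Perm (Fin n)) (g : ℕ → Option (Lt q)) (N : ℕ) {s : ℕ}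
    (x : Fin s → Fin n) (y : World q n) :
    (Pool.Agent.Helper1.TP.crossed y a g N x).ncard =
      (Finset.univ.biUnion fun l : Fin s => usedSet (prog a g) y 0 (x l) (2 * N)).card := by
  classical
  have h : Pool.Agent.Helper1.TP.crossed y a g N x =
      ((Finset.univ.biUnion fun l : Fin s => usedSet (prog a g) y 0 (x l) (2 * N) :
        Finset (Fin q × Fin n)) : Set (Fin q × Fin n)) := by
    ext e
    rw [Finset.mem_coe, Finset.mem_biUnion]
    constructor
    · rintro ⟨l, hl⟩
      exact ⟨l, Finset.mem_univ _, mem_usedSet.2 hl⟩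
    · rintro ⟨l, -, hl⟩
      exact ⟨l, mem_usedSet.1 hl⟩
  rw [h, Set.ncard_coe_finset]

/-- **(FCL)** in helper1's form, with the constant 72 -/
theorem s_fcl : Pool.Agent.Helper1.TP.S_FCL 72 := by
  classical
  intro q n N s F P J g a b x hx hNS hN hn
  set m := J / 3 with hm
  have hD : ∀ (y : World q n) (l : Fin s),
      (Kof (prog a g) (prog b g) (2 * N) x y l).card + 2 * (2 * N) ≤ 2 * N * s + 2 * N := by
    intro y l
    have h1 := Kof_card_prog a b g N x y l
    have h2 : (l.val + 1) * (2 * N) ≤ s * (2 * N) := Nat.mul_le_mul l.isLt le_rfl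
    nlinarith
  have h := pay_rareD (prog a g) (prog b g) (2 * N) x m hD
  have e2 : Fintype.card (World q n) = n.factorial ^ q := by
    simp [World, Fintype.card_perm]
  rw [e2] at h
  set X := ((Finset.univ : Finset (World q n)).filter fun y =>
      m ≤ (Finset.univ.filter fun l => Pay (prog a g) (prog b g) (2 * N) x l y).card).card with hX
  have hle : Nat.card {y : World q n // Pool.Agent.Helper1.TP.Closed y a b g N x ∧
      Pool.Agent.Helper1.TP.Fresh y a g N F x ∧ Pool.Agent.Helper1.TP.Fresh y b g N F x ∧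
      3 * F + s * P + J * Pool.Agent.Helper1.TP.nl g N <
        Pool.Agent.Helper1.TP.nsplit y a b g N x} ≤ X := by
    rw [Nat.card_eq_fintype_card, Fintype.card_subtype, hX]
    refine Finset.card_le_card fun y hy => ?_
    rw [Finset.mem_filter] at hy ⊢
    refine ⟨Finset.mem_univ _, ?_⟩
    obtain ⟨-, h1, h2, h3, h4⟩ := hy
    unfold Pool.Agent.Helper1.TP.Fresh at h2 h3
    rw [crossed_ncard] at h2 h3
    have h5 := many_payG (a := a) (b := b) (x := x) (y := y) hNS h1 h2 h3 h4
    have h6 : J < 3 * (Finset.univ.filter fun l : Fin s =>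
        Pay (prog a g) (prog b g) (2 * N) x l y).card := by
      convert h5
    omega
  -- numbers
  have hn2 : n ≤ 2 * (n - (2 * N * s + 2 * N)) := by
    have h1 : 2 * (2 * N * s + 2 * N) ≤ n := by nlinarith
    omega
  have hnat : X * n ^ m ≤ 2 ^ s * (72 * N ^ 3) ^ m * n.factorial ^ q := by
    calc X * n ^ m ≤ X * (2 * (n - (2 * N * s + 2 * N))) ^ m :=
          Nat.mul_le_mul le_rfl (Nat.pow_le_pow_left hn2 m)
      _ = 2 ^ m * (X * (n - (2 * N * s + 2 * N)) ^ m) := by rw [mul_pow]; ring
      _ ≤ 2 ^ m * (2 ^ s * (2 * (2 * N) * (2 * N + 1) ^ 2) ^ m * n.factorial ^ q) :=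
          Nat.mul_le_mul le_rfl h
      _ = 2 ^ s * (2 * (2 * (2 * N) * (2 * N + 1) ^ 2)) ^ m * n.factorial ^ q := by
          rw [mul_pow 2 (2 * (2 * N) * (2 * N + 1) ^ 2) m]; ring
      _ ≤ 2 ^ s * (72 * N ^ 3) ^ m * n.factorial ^ q := by
          refine Nat.mul_le_mul (Nat.mul_le_mul le_rfl (Nat.pow_le_pow_left ?_ m)) le_rfl
          have h1 : (2 * N + 1) ^ 2 ≤ (3 * N) ^ 2 := Nat.pow_le_pow_left (by omega) 2
          calc 2 * (2 * (2 * N) * (2 * N + 1) ^ 2) ≤ 2 * (2 * (2 * N) * (3 * N) ^ 2) :=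
                Nat.mul_le_mul le_rfl (Nat.mul_le_mul le_rfl h1)
            _ = 72 * N ^ 3 := by ring
  have hnpos : (0 : ℝ) < n := by
    have : 0 < n := by omega
    exact_mod_cast this
  have hreal : (X : ℝ) * (n : ℝ) ^ m ≤
      2 ^ s * (72 * (N : ℝ) ^ 3) ^ m * (n.factorial : ℝ) ^ q := by
    exact_mod_cast hnat
  have hX2 : (X : ℝ) ≤ 2 ^ s * (72 * (N : ℝ) ^ 3 / n) ^ m * (n.factorial : ℝ) ^ q := by
    rw [div_pow]
    have e : 2 ^ s * ((72 * (N : ℝ) ^ 3) ^ m / (n : ℝ) ^ m) * (n.factorial : ℝ) ^ q =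
        (2 ^ s * (72 * (N : ℝ) ^ 3) ^ m * (n.factorial : ℝ) ^ q) / (n : ℝ) ^ m := by ring
    rw [e, le_div_iff₀ (pow_pos hnpos m)]
    exact hreal
  have h24 : (2 : ℝ) ^ s ≤ 4 ^ s := pow_le_pow_left₀ (by norm_num) (by norm_num) s
  calc (Nat.card {y : World q n // Pool.Agent.Helper1.TP.Closed y a b g N x ∧
      Pool.Agent.Helper1.TP.Fresh y a g N F x ∧ Pool.Agent.Helper1.TP.Fresh y b g N F x ∧
      3 * F + s * P + J * Pool.Agent.Helper1.TP.nl g N <
        Pool.Agent.Helper1.TP.nsplit y a b g N x} : ℝ) ≤ X := by exact_mod_cast hle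
    _ ≤ 2 ^ s * (72 * (N : ℝ) ^ 3 / n) ^ m * (n.factorial : ℝ) ^ q := hX2
    _ ≤ 4 ^ s * (72 * (N : ℝ) ^ 3 / n) ^ m * (n.factorial : ℝ) ^ q := by
        refine mul_le_mul_of_nonneg_right (mul_le_mul_of_nonneg_right h24 (by positivity))
          (by positivity)

end Pool.Agent.Helper46.FS
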