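import Pool.Agent.Helper4.FS.Pal

/-! Project FS (MP_75608d_al), closing lemma for many tokens, part 1: one switching. If a new edge is
used exactly once by the first path up to half-time `i`, not used by the second path up to
half-time `j`, and the two positions agree there, then the far end of the edge is determined. -/

namespace Pool.Agent.Helper46.FS

open Equiv Pool.Agent.Helper4.FS

variable {q n : ℕ}

lemma pos_congr {P P' : ℕ → Stp q n} {y : World q n} {i i' : ℕ} {x : Fin n} {t : ℕ}
    (h : ∀ k < t, P (i + k) = P' (i' + k)) : pos P y i x t = pos P' y i' x t := by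
  induction t with
  | zero => rfl
  | succ t ih =>
    rw [pos_succ, pos_succ, ih (fun k hk => h k (by omega)), h t (by omega)]

/-- first `i` steps of `P1`, then the first `j` steps of `P2` backwards -/
def frv (P1 P2 : ℕ → Stp q n) (i j : ℕ) (k : ℕ) : Stp q n :=
  if k < i then P1 k else istp (P2 (i + j - 1 - k))

lemma frv_fwd (P1 P2 : ℕ → Stp q n) (i j : ℕ) (y : World q n) (x : Fin n) {k : ℕ} (hk : k ≤ i) :
    pos (frv P1 P2 i j) y 0 x k = pos P1 y 0 x k := by
  refine pos_congr fun k' hk' => ?_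
  simp [frv, show k' < i by omega]

lemma frv_back {P1 P2 : ℕ → Stp q n} {i j : ℕ} {y : World q n} {x : Fin n}
    (h : pos P1 y 0 x i = pos P2 y 0 x j) {t : ℕ} (ht : t ≤ j) :
    pos (frv P1 P2 i j) y 0 x (i + t) = pos P2 y 0 x (j - t) := by
  induction t with
  | zero => rw [Nat.add_zero, frv_fwd P1 P2 i j y x le_rfl, h]; rfl
  | succ t ih =>
    have hs : frv P1 P2 i j (0 + (i + t)) = istp (P2 (j - 1 - t)) := by
      have h1 : ¬ (0 + (i + t) < i) := by omega
      have h2 : i + j - 1 - (0 + (i + t)) = j - 1 - t := by omega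
      simp only [frv, h1, if_false, h2]
    have e1 : j - t = (j - 1 - t) + 1 := by omega
    have e2 : j - (t + 1) = j - 1 - t := by omega
    rw [← Nat.add_assoc, pos_succ, hs, ih (by omega), e1, pos_succ, act_istp, e2, zero_add]
    simp

lemma ed_istp (y : World q n) (m : Lt q) (p : Fin n) :
    ed y (m.1, !m.2) (lp y m p) = ed y m p := by
  obtain ⟨j, σ⟩ := m
  cases σ <;> simp [ed, Pool.Agent.Helper4.FS.lp]

/-- the event of the switching -/
def DetEv (P1 P2 : ℕ → Stp q n) (K : Finset (Fin q × Fin n)) (x : Fin n) (v i j : ℕ)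
    (y : World q n) : Prop :=
  v < i ∧ ∃ m, P1 v = Sum.inr m ∧ ed y m (pos P1 y 0 x v) ∉ K ∧
    (∀ k < i, k ≠ v → ∀ m', P1 k = Sum.inr m' →
      ed y m' (pos P1 y 0 x k) ≠ ed y m (pos P1 y 0 x v)) ∧
    (∀ k < j, ∀ m', P2 k = Sum.inr m' →
      ed y m' (pos P2 y 0 x k) ≠ ed y m (pos P1 y 0 x v)) ∧
    pos P1 y 0 x i = pos P2 y 0 x j

lemma det_swEv {P1 P2 : ℕ → Stp q n} {K : Finset (Fin q × Fin n)} {x : Fin n} {v i j : ℕ}
    {m : Lt q} (hm : P1 v = Sum.inr m) (hv : v < i) {y : World q n}
    (h : DetEv P1 P2 K x v i j y) :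
    SwEv (frv P1 P2 i j) K 0 x v m (v + 1) ((i - v - 1) + j) x y := by
  obtain ⟨-, m', hm', hK, h1, h2, h3⟩ := h
  rw [hm] at hm'
  obtain rfl : m = m' := Sum.inr_injective hm'
  have hpv : pos (frv P1 P2 i j) y 0 x v = pos P1 y 0 x v := frv_fwd P1 P2 i j y x hv.le
  have hfar : lp y m (pos P1 y 0 x v) = pos (frv P1 P2 i j) y 0 x (v + 1) := by
    rw [frv_fwd P1 P2 i j y x (by omega : v + 1 ≤ i), pos_succ, zero_add, hm]
    rfl
  have hrun : ∀ t, pos (frv P1 P2 i j) y (v + 1) (lp y m (pos P1 y 0 x v)) t =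
      pos (frv P1 P2 i j) y 0 x (v + 1 + t) := by
    intro t
    have h0 := pos_add (frv P1 P2 i j) y 0 x (v + 1) t
    rw [zero_add] at h0
    rw [hfar, ← h0]
  refine ⟨?_, ?_, ?_, ?_⟩
  · rw [hpv]; exact hK
  · rw [hpv]
    rintro ⟨k, hk, m', hs, he⟩
    rw [zero_add] at hs
    have hs' : P1 k = Sum.inr m' := by
      rw [← hs]; simp [frv, show k < i by omega]
    rw [frv_fwd P1 P2 i j y x (by omega : k ≤ i)] at he
    exact h1 k (by omega) (by omega) m' hs' he
  · rw [hpv]
    rintro ⟨k, hk, m', hs, he⟩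
    rw [hrun] at he
    by_cases hki : v + 1 + k < i
    · have hs' : P1 (v + 1 + k) = Sum.inr m' := by
        rw [← hs]; simp [frv, hki]
      rw [frv_fwd P1 P2 i j y x (by omega)] at he
      exact h1 (v + 1 + k) hki (by omega) m' hs' he
    · obtain ⟨t, ht⟩ : ∃ t, v + 1 + k = i + t := ⟨v + 1 + k - i, by omega⟩
      have htj : t < j := by omega
      rw [ht, frv_back h3 htj.le] at he
      have hs' : istp (P2 (j - 1 - t)) = Sum.inr m' := by
        rw [← hs]
        have h4 : ¬ (v + 1 + k < i) := hki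
        have h5 : i + j - 1 - (v + 1 + k) = j - 1 - t := by omega
        simp only [frv, h4, if_false, h5]
      rcases hP : P2 (j - 1 - t) with c | m''
      · rw [hP] at hs'; simp [istp] at hs'
      · rw [hP] at hs'
        have hs'' : ((m''.1, !m''.2) : Lt q) = m' := by
          simpa [istp] using hs'
        have e1 : j - t = (j - 1 - t) + 1 := by omega
        rw [e1, pos_succ, zero_add, hP] at he
        have he' : ed y (m''.1, !m''.2) (lp y m'' (pos P2 y 0 x (j - 1 - t))) =
            ed y m (pos P1 y 0 x v) := by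
          rw [hs'']; exact he
        rw [ed_istp] at he'
        exact h2 (j - 1 - t) (by omega) m'' hP he'
  · rw [hpv, hrun]
    have e1 : v + 1 + ((i - v - 1) + j) = i + j := by omega
    rw [e1, frv_back h3 le_rfl]
    simp

open Classical in
/-- one switching -/
theorem det_card (P1 P2 : ℕ → Stp q n) (K : Finset (Fin q × Fin n)) (y0 : World q n) (x : Fin n)
    (v i j : ℕ) :
    ((Om K y0).filter (DetEv P1 P2 K x v i j)).card * (n - (K.card + i + j)) ≤
      (Om K y0).card := by
  classical
  by_cases hv : v < i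
  · rcases hm : P1 v with c | m
    · have : (Om K y0).filter (DetEv P1 P2 K x v i j) = ∅ := by
        rw [Finset.filter_eq_empty_iff]
        rintro y - ⟨-, m', hm', -⟩
        rw [hm] at hm'
        exact absurd hm' (by simp)
      rw [this]; simp
    · have h := swap_lemma (frv P1 P2 i j) K y0 0 x v m (v + 1) ((i - v - 1) + j) x
      have e1 : K.card + v + ((i - v - 1) + j) + 1 = K.card + i + j := by omega
      rw [e1] at h
      refine le_trans (Nat.mul_le_mul ?_ le_rfl) h
      refine Finset.card_le_card fun y hy => ?_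
      rw [Finset.mem_filter] at hy ⊢
      exact ⟨hy.1, det_swEv hm hv hy.2⟩
  · have : (Om K y0).filter (DetEv P1 P2 K x v i j) = ∅ := by
      rw [Finset.filter_eq_empty_iff]
      rintro y - ⟨h, -⟩
      exact hv h
    rw [this]; simp

end Pool.Agent.Helper46.FS
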