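import Pool.Agent.Helper46.FS.Seq

/-! Project FS (MP_75608d_al), closing lemma for many tokens, part 3: if all tokens close, both path
systems are fresh, many pairs are split and the pattern has no long increasing matching, then many
tokens pay. -/

namespace Pool.Agent.Helper46.FS

open Equiv Pool.Agent.Helper4.FS

variable {q n : ℕ}

/-! ### counting -/

section count

variable {α β : Type} [DecidableEq α] [DecidableEq β]

lemma two_card_image (S : Finset α) (f : α → β) :
    2 * (S.image f).card ≤ (S.filter fun p => ∀ p' ∈ S, f p' = f p → p' = p).card + S.card := by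
  classical
  set U := S.filter fun p => ∀ p' ∈ S, f p' = f p → p' = p with hU
  have e1 : S.card = ∑ b ∈ S.image f, (S.filter fun p => f p = b).card :=
    Finset.card_eq_sum_card_fiberwise fun p hp => Finset.mem_image_of_mem _ hp
  have e2 : U.card = ∑ b ∈ S.image f, (U.filter fun p => f p = b).card :=
    Finset.card_eq_sum_card_fiberwise fun p hp =>
      Finset.mem_image_of_mem _ (Finset.mem_filter.1 hp).1
  rw [e2]
  conv_rhs => rw [e1]
  rw [← Finset.sum_add_distrib]
  have : ∑ _b ∈ S.image f, 2 = 2 * (S.image f).card := by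
    rw [Finset.sum_const, smul_eq_mul, mul_comm]
  rw [← this]
  refine Finset.sum_le_sum fun b hb => ?_
  obtain ⟨p, hp, rfl⟩ := Finset.mem_image.1 hb
  have hp1 : p ∈ S.filter fun p' => f p' = f p := Finset.mem_filter.2 ⟨hp, rfl⟩
  by_cases h2 : 2 ≤ (S.filter fun p' => f p' = f p).card
  · omega
  · have h1 : (S.filter fun p' => f p' = f p).card = 1 := by
      have := Finset.card_pos.2 ⟨p, hp1⟩
      omega
    have h3 : p ∈ U.filter fun p' => f p' = f p := by
      rw [Finset.mem_filter, hU, Finset.mem_filter]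
      refine ⟨⟨hp, ?_⟩, rfl⟩
      intro p' hp' hf
      obtain ⟨a, ha⟩ := Finset.card_eq_one.1 h1
      have m1 : p' ∈ S.filter fun p'' => f p'' = f p := Finset.mem_filter.2 ⟨hp', hf⟩
      rw [ha] at m1 hp1
      rw [Finset.mem_singleton.1 m1, Finset.mem_singleton.1 hp1]
    have := Finset.card_pos.2 ⟨p, h3⟩
    omega

omit [DecidableEq α] in
lemma multi_card (S : Finset α) (f : α → β) :
    ((S.image f).filter fun b => 2 ≤ (S.filter fun p => f p = b).card).card +
      (S.image f).card ≤ S.card := by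
  classical
  have e1 : S.card = ∑ b ∈ S.image f, (S.filter fun p => f p = b).card :=
    Finset.card_eq_sum_card_fiberwise fun p hp => Finset.mem_image_of_mem _ hp
  conv_rhs => rw [e1]
  rw [Finset.card_filter, Finset.card_eq_sum_ones (S.image f), ← Finset.sum_add_distrib]
  refine Finset.sum_le_sum fun b hb => ?_
  obtain ⟨p, hp, rfl⟩ := Finset.mem_image.1 hb
  have hp1 : 0 < (S.filter fun p' => f p' = f p).card :=
    Finset.card_pos.2 ⟨p, Finset.mem_filter.2 ⟨hp, rfl⟩⟩
  split_ifs with h <;> omega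

end count

/-! ### programs -/

lemma prog_inr {a : ℕ → Perm (Fin n)} {g : ℕ → Option (Lt q)} {k : ℕ} {m : Lt q}
    (h : prog a g k = Sum.inr m) : ∃ v, k = 2 * v + 1 ∧ g v = some m := by
  rcases Nat.even_or_odd' k with ⟨v, hv | hv⟩
  · rw [hv, prog_even] at h
    exact absurd h (by simp)
  · refine ⟨v, hv, ?_⟩
    rcases hg : g v with _ | m'
    · rw [hv, prog_odd_none hg] at h
      exact absurd h (by simp)
    · rw [hv, prog_odd_some hg] at h
      rw [Sum.inr_injective h]

lemma used_iff {a : ℕ → Perm (Fin n)} {g : ℕ → Option (Lt q)} {y : World q n} {x0 : Fin n} {N : ℕ}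
    {e : Fin q × Fin n} : e ∈ usedSet (prog a g) y 0 x0 (2 * N) ↔
      ∃ v < N, ∃ m, g v = some m ∧ ed y m (pos (prog a g) y 0 x0 (2 * v + 1)) = e := by
  rw [mem_usedSet]
  constructor
  · rintro ⟨k, hk, m, hm, he⟩
    rw [zero_add] at hm
    obtain ⟨v, rfl, hg⟩ := prog_inr hm
    exact ⟨v, by omega, m, hg, he⟩
  · rintro ⟨v, hv, m, hg, he⟩
    exact ⟨2 * v + 1, by omega, m, by rw [zero_add]; exact prog_odd_some hg, he⟩

lemma det_prog {a b : ℕ → Perm (Fin n)} {g : ℕ → Option (Lt q)} {y : World q n} {x0 : Fin n}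
    {K : Finset (Fin q × Fin n)} {v I J : ℕ} {m : Lt q} (hg : g v = some m) (hI : 2 * v + 1 < I)
    (hK : ed y m (pos (prog a g) y 0 x0 (2 * v + 1)) ∉ K)
    (h1 : ∀ v', 2 * v' + 1 < I → v' ≠ v → ∀ m', g v' = some m' →
      ed y m' (pos (prog a g) y 0 x0 (2 * v' + 1)) ≠
        ed y m (pos (prog a g) y 0 x0 (2 * v + 1)))
    (h2 : ∀ v', 2 * v' + 1 < J → ∀ m', g v' = some m' →
      ed y m' (pos (prog b g) y 0 x0 (2 * v' + 1)) ≠
        ed y m (pos (prog a g) y 0 x0 (2 * v + 1)))
    (h3 : pos (prog a g) y 0 x0 I = pos (prog b g) y 0 x0 J) :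
    DetEv (prog a g) (prog b g) K x0 (2 * v + 1) I J y := by
  refine ⟨hI, m, prog_odd_some hg, hK, ?_, ?_, h3⟩
  · intro k hk hkv m' hm'
    obtain ⟨v', rfl, hg'⟩ := prog_inr hm'
    exact h1 v' hk (by omega) m' hg'
  · intro k hk m' hm'
    obtain ⟨v', rfl, hg'⟩ := prog_inr hm'
    exact h2 v' hk m' hg'

/-! ### the deterministic part -/

/-- the edge crossed by token `p.1` at slot `p.2` -/
def eo (a : ℕ → Perm (Fin n)) (g : ℕ → Option (Lt q)) (y : World q n) {s : ℕ} (x : Fin s → Fin n)
    (p : Fin s × ℕ) : Option (Fin q × Fin n) :=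
  (g p.2).map fun m => ed y m (pos (prog a g) y 0 (x p.1) (2 * p.2 + 1))

lemma eo_eq_some {a : ℕ → Perm (Fin n)} {g : ℕ → Option (Lt q)} {y : World q n} {s : ℕ}
    {x : Fin s → Fin n} {p : Fin s × ℕ} {e : Fin q × Fin n} :
    eo a g y x p = some e ↔ ∃ m, g p.2 = some m ∧
      ed y m (pos (prog a g) y 0 (x p.1) (2 * p.2 + 1)) = e := by
  simp [eo, Option.map_eq_some_iff]

lemma image_eo (a : ℕ → Perm (Fin n)) (g : ℕ → Option (Lt q)) (y : World q n) {s : ℕ}
    (x : Fin s → Fin n) (N : ℕ) :
    (((Finset.univ : Finset (Fin s)) ×ˢ ((Finset.range N).filter fun v => g v ≠ none)).image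
      (eo a g y x)).card =
    (Finset.univ.biUnion fun l : Fin s => usedSet (prog a g) y 0 (x l) (2 * N)).card := by
  classical
  have h : ((Finset.univ : Finset (Fin s)) ×ˢ
      ((Finset.range N).filter fun v => g v ≠ none)).image (eo a g y x) =
      (Finset.univ.biUnion fun l : Fin s => usedSet (prog a g) y 0 (x l) (2 * N)).image some := by
    ext o
    simp only [Finset.mem_image, Finset.mem_product, Finset.mem_univ, true_and,
      Finset.mem_filter, Finset.mem_range, Finset.mem_biUnion]
    constructor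
    · rintro ⟨p, ⟨hp1, hp2⟩, rfl⟩
      obtain ⟨m, hm⟩ := Option.ne_none_iff_exists'.1 hp2
      refine ⟨ed y m (pos (prog a g) y 0 (x p.1) (2 * p.2 + 1)), ⟨p.1, ?_⟩, ?_⟩
      · rw [used_iff]
        exact ⟨p.2, hp1, m, hm, rfl⟩
      · symm
        rw [eo_eq_some]
        exact ⟨m, hm, rfl⟩
    · rintro ⟨e, ⟨l, he⟩, rfl⟩
      rw [used_iff] at he
      obtain ⟨v, hv, m, hm, he⟩ := he
      refine ⟨(l, v), ⟨hv, by simp [hm]⟩, ?_⟩
      rw [eo_eq_some]
      exact ⟨m, hm, he⟩
  rw [h, Finset.card_image_of_injective _ (Option.some_injective _)]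

section det

variable {N s : ℕ} {g : ℕ → Option (Lt q)} {a b : ℕ → Perm (Fin n)} {x : Fin s → Fin n}
  {y : World q n}

/-- a new edge which is used exactly once by the loop of a closing token -/
lemma pay_once (l : Fin s) {v : ℕ} {e : Fin q × Fin n} (hv : v < N)
    (hcl : pos (prog a g) y 0 (x l) (2 * N) = pos (prog b g) y 0 (x l) (2 * N))
    (he : eo a g y x (l, v) = some e)
    (hK : e ∉ Kof (prog a g) (prog b g) (2 * N) x y l)
    (h1 : ∀ v' < N, eo a g y x (l, v') = some e → v' = v)
    (h2 : ∀ v' < N, eo b g y x (l, v') ≠ some e) :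
    DetEv (prog a g) (prog b g) (Kof (prog a g) (prog b g) (2 * N) x y l) (x l) (2 * v + 1)
      (2 * N) (2 * N) y := by
  obtain ⟨m, hm, hed⟩ := eo_eq_some.1 he
  simp only at hm hed
  refine det_prog hm (by omega) (by rw [hed]; exact hK) ?_ ?_ hcl
  · intro v' hv' hne m' hm' heq
    rw [hed] at heq
    exact hne (h1 v' (by omega) (eo_eq_some.2 ⟨m', hm', heq⟩))
  · intro v' hv' m' hm' heq
    rw [hed] at heq
    exact h2 v' (by omega) (eo_eq_some.2 ⟨m', hm', heq⟩)

lemma Kof_comm (P1 P2 : ℕ → Stp q n) (L : ℕ) (x : Fin s → Fin n) (y : World q n) (l : ℕ) :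
    Kof P1 P2 L x y l = Kof P2 P1 L x y l := by
  unfold Kof tk
  refine Finset.biUnion_congr rfl fun l' _ => Finset.union_comm _ _

lemma not_mem_Kof (l : Fin s) {e : Fin q × Fin n}
    (h1 : ∀ l' : Fin s, l' < l → ∀ v < N, eo a g y x (l', v) ≠ some e)
    (h2 : ∀ l' : Fin s, l' < l → ∀ v < N, eo b g y x (l', v) ≠ some e) :
    e ∉ Kof (prog a g) (prog b g) (2 * N) x y l := by
  rw [mem_Kof]
  rintro ⟨l', hl', he⟩
  rw [tk, Finset.mem_union, used_iff, used_iff] at he
  rcases he with ⟨v, hv, m, hm, he⟩ | ⟨v, hv, m, hm, he⟩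
  · exact h1 l' hl' v hv (eo_eq_some.2 ⟨m, hm, he⟩)
  · exact h2 l' hl' v hv (eo_eq_some.2 ⟨m, hm, he⟩)

open Classical in
/-- **the deterministic part** -/
theorem many_pay (hN' : 0 < ((Finset.range N).filter fun v => g v ≠ none).card)
    (hpat : ∀ I ⊆ Finset.range N, ∀ φ : ℕ → ℕ, StrictMonoOn φ (I : Set ℕ) →
      (∀ v ∈ I, φ v < N ∧ φ v ≠ v ∧ g v ≠ none ∧ g (φ v) = g v) →
      8 * I.card ≤ ((Finset.range N).filter fun v => g v ≠ none).card)
    (hcl : ∀ l, pos (prog a g) y 0 (x l) (2 * N) = pos (prog b g) y 0 (x l) (2 * N))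
    (hfa : 31 * (s * ((Finset.range N).filter fun v => g v ≠ none).card) ≤
      32 * (Finset.univ.biUnion fun l : Fin s => usedSet (prog a g) y 0 (x l) (2 * N)).card)
    (hfb : 31 * (s * ((Finset.range N).filter fun v => g v ≠ none).card) ≤
      32 * (Finset.univ.biUnion fun l : Fin s => usedSet (prog b g) y 0 (x l) (2 * N)).card)
    (hsp : 3 * (s * ((Finset.range N).filter fun v => g v ≠ none).card) ≤
      8 * (((Finset.univ : Finset (Fin s)) ×ˢ Finset.range N).filter fun p => g p.2 ≠ none ∧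
        pos (prog a g) y 0 (x p.1) (2 * p.2 + 1) ≠
          pos (prog b g) y 0 (x p.1) (2 * p.2 + 1)).card) :
    5 * s ≤ 96 * (Finset.univ.filter fun l : Fin s =>
      Pay (prog a g) (prog b g) (2 * N) x l y).card := by
  classical
  rw [← image_eo] at hfa hfb
  set V := (Finset.range N).filter fun v => g v ≠ none with hV
  set PAY := Finset.univ.filter fun l : Fin s => Pay (prog a g) (prog b g) (2 * N) x l y with hPAY
  set Ω := (Finset.univ : Finset (Fin s)) ×ˢ V with hΩ
  have hΩc : Ω.card = s * V.card := by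
    rw [hΩ, Finset.card_product, Finset.card_univ, Fintype.card_fin]
  have memΩ : ∀ p : Fin s × ℕ, p ∈ Ω ↔ p.2 < N ∧ g p.2 ≠ none := by
    intro p
    simp [hΩ, hV]
  set f1 := eo a g y x with hf1
  set f2 := eo b g y x with hf2
  set U1 := Ω.filter fun p => ∀ p' ∈ Ω, f1 p' = f1 p → p' = p with hU1
  set M2 := (Ω.image f2).filter fun o => 2 ≤ (Ω.filter fun p => f2 p = o).card with hM2
  have c1 : 2 * (Ω.image f1).card ≤ U1.card + Ω.card := two_card_image Ω f1
  have c2 : M2.card + (Ω.image f2).card ≤ Ω.card := multi_card Ω f2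
  set Q := ((Finset.univ : Finset (Fin s)) ×ˢ Finset.range N).filter fun p => g p.2 ≠ none ∧
        pos (prog a g) y 0 (x p.1) (2 * p.2 + 1) ≠
          pos (prog b g) y 0 (x p.1) (2 * p.2 + 1) with hQ
  have memQ : ∀ p : Fin s × ℕ, p ∈ Q ↔ p.2 < N ∧ g p.2 ≠ none ∧
      pos (prog a g) y 0 (x p.1) (2 * p.2 + 1) ≠ pos (prog b g) y 0 (x p.1) (2 * p.2 + 1) := by
    intro p
    simp [hQ]
  have QΩ : Q ⊆ Ω := by
    intro p hp
    rw [memΩ]
    rw [memQ] at hp
    exact ⟨hp.1, hp.2.1⟩
  set Q2 := Q.filter fun p => p ∈ U1 ∧ f1 p ∉ M2 with hQ2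
  -- size of Q2
  have c3 : Q.card ≤ Q2.card + (Ω \ U1).card + (U1.filter fun p => f1 p ∈ M2).card := by
    have : Q ⊆ Q2 ∪ (Ω \ U1) ∪ (U1.filter fun p => f1 p ∈ M2) := by
      intro p hp
      by_cases h1 : p ∈ U1
      · by_cases h2 : f1 p ∈ M2
        · exact Finset.mem_union_right _ (Finset.mem_filter.2 ⟨h1, h2⟩)
        · exact Finset.mem_union_left _ (Finset.mem_union_left _
            (Finset.mem_filter.2 ⟨hp, h1, h2⟩))
      · exact Finset.mem_union_left _ (Finset.mem_union_right _
          (Finset.mem_sdiff.2 ⟨QΩ hp, h1⟩))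
    refine (Finset.card_le_card this).trans ((Finset.card_union_le _ _).trans ?_)
    exact Nat.add_le_add (Finset.card_union_le _ _) le_rfl
  have c4 : (Ω \ U1).card + U1.card = Ω.card :=
    Finset.card_sdiff_add_card_eq_card (Finset.filter_subset _ _)
  have c5 : (U1.filter fun p => f1 p ∈ M2).card ≤ M2.card := by
    refine Finset.card_le_card_of_injOn f1 ?_ ?_
    · intro p hp
      exact (Finset.mem_filter.1 hp).2
    · intro p hp p' hp' he
      have h1 := (Finset.mem_filter.1 hp).1
      have h2 := (Finset.mem_filter.1 hp').1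
      rw [hU1, Finset.mem_filter] at h1 h2
      exact (h1.2 p' h2.1 he.symm).symm
  have c6 : 9 * (s * V.card) ≤ 32 * Q2.card := by
    rw [hΩc] at c1 c2 c4
    omega
  -- private pairs
  set A := Q2.filter fun p => ∃ v' < N, f2 (p.1, v') = f1 p with hA
  set Bs := Q2.filter fun p => ¬ ∃ v' < N, f2 (p.1, v') = f1 p with hBs
  have c7 : A.card + Bs.card = Q2.card := Finset.card_filter_add_card_filter_not _
  -- facts about Q2
  have uniq1 : ∀ p ∈ Q2, ∀ l' v', v' < N → f1 (l', v') = f1 p → (l', v') = p := by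
    intro p hp l' v' hv' he
    obtain ⟨hpQ, hpU, -⟩ := Finset.mem_filter.1 hp
    rw [hU1, Finset.mem_filter] at hpU
    refine hpU.2 (l', v') ?_ he
    rw [memΩ]
    refine ⟨hv', ?_⟩
    intro h0
    have h1 : f1 (l', v') = none := by simp [hf1, eo, h0]
    have h2 := (memQ p).1 hpQ
    obtain ⟨m, hm⟩ := Option.ne_none_iff_exists'.1 h2.2.1
    rw [h1] at he
    simp [hf1, eo, hm] at he
  have uniq2 : ∀ p ∈ Q2, ∀ l' v' l'' v'', v' < N → v'' < N → f2 (l', v') = f1 p →
      f2 (l'', v'') = f1 p → (l', v') = (l'', v'') := by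
    intro p hp l' v' l'' v'' hv' hv'' he' he''
    obtain ⟨hpQ, hpU, hpM⟩ := Finset.mem_filter.1 hp
    have h2 := (memQ p).1 hpQ
    obtain ⟨m, hm⟩ := Option.ne_none_iff_exists'.1 h2.2.1
    have hne : ∀ l0 v0, f2 (l0, v0) = f1 p → g v0 ≠ none := by
      intro l0 v0 h3 h0
      have h1 : f2 (l0, v0) = none := by simp [hf2, eo, h0]
      rw [h1] at h3
      simp [hf1, eo, hm] at h3
    have m1 : (l', v') ∈ Ω.filter fun p' => f2 p' = f1 p :=
      Finset.mem_filter.2 ⟨(memΩ _).2 ⟨hv', hne _ _ he'⟩, he'⟩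
    have m2 : (l'', v'') ∈ Ω.filter fun p' => f2 p' = f1 p :=
      Finset.mem_filter.2 ⟨(memΩ _).2 ⟨hv'', hne _ _ he''⟩, he''⟩
    by_contra hcon
    apply hpM
    rw [hM2, Finset.mem_filter]
    refine ⟨Finset.mem_image.2 ⟨(l', v'), (Finset.mem_filter.1 m1).1, he'⟩, ?_⟩
    exact Finset.one_lt_card.2 ⟨_, m1, _, m2, hcon⟩
  -- pairs which are not private: somebody pays
  have payB : ∀ p ∈ Bs, p.1 ∈ PAY ∨ ∃ p' ∈ Ω, f2 p' = f1 p ∧ p'.1 ∈ PAY := by
    intro p hp
    obtain ⟨hp2, hpr⟩ := Finset.mem_filter.1 hp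
    push Not at hpr
    obtain ⟨hpQ, -, -⟩ := Finset.mem_filter.1 hp2
    obtain ⟨hpN, hpg, -⟩ := (memQ p).1 hpQ
    obtain ⟨m, hm⟩ := Option.ne_none_iff_exists'.1 hpg
    obtain ⟨e, he⟩ : ∃ e, f1 p = some e := ⟨_, by rw [hf1]; exact eo_eq_some.2 ⟨m, hm, rfl⟩⟩
    have hu1 := uniq1 p hp2
    have hu2 := uniq2 p hp2
    rw [he] at hu1 hu2 hpr
    by_cases hex : ∃ l' : Fin s, l' < p.1 ∧ ∃ v' < N, f2 (l', v') = some e
    · -- an earlier token crosses `e` with its second path
      obtain ⟨l', hl', v', hv', he'⟩ := hex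
      right
      have hg' : g v' ≠ none := by
        intro h0
        have h1 : f2 (l', v') = none := by simp [hf2, eo, h0]
        rw [h1] at he'; simp at he'
      refine ⟨(l', v'), (memΩ _).2 ⟨hv', hg'⟩, by rw [he, he'], ?_⟩
      rw [hPAY, Finset.mem_filter]
      refine ⟨Finset.mem_univ _, 2 * v' + 1, by omega, 2 * N, le_rfl, 2 * N, le_rfl, Or.inr ?_⟩
      have hK : e ∉ Kof (prog b g) (prog a g) (2 * N) x y l' := by
        refine not_mem_Kof l' ?_ ?_
        · intro l'' hl'' v hv hev
          have := hu2 l' v' l'' v hv' hv he' hev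
          simp only [Prod.mk.injEq] at this
          rw [this.1] at hl''
          exact lt_irrefl _ hl''
        · intro l'' hl'' v hv hev
          have := hu1 l'' v hv hev
          rw [← this] at hl'
          exact lt_irrefl _ (hl'.trans hl'')
      have hd := pay_once (a := b) (b := a) (x := x) l' hv' (hcl l').symm he' hK
        (fun v hv hev => by
          have := hu2 l' v l' v' hv hv' hev he'
          simp only [Prod.mk.injEq, true_and] at this
          exact this)
        (fun v hv hev => by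
          have := hu1 l' v hv hev
          rw [← this] at hl'
          exact lt_irrefl _ hl')
      rw [Kof_comm (prog b g) (prog a g)] at hd
      exact hd
    · push Not at hex
      left
      rw [hPAY, Finset.mem_filter]
      refine ⟨Finset.mem_univ _, 2 * p.2 + 1, by omega, 2 * N, le_rfl, 2 * N, le_rfl, Or.inl ?_⟩
      have hK : e ∉ Kof (prog a g) (prog b g) (2 * N) x y p.1 := by
        refine not_mem_Kof p.1 ?_ ?_
        · intro l'' hl'' v hv hev
          have := hu1 l'' v hv hev
          rw [← this] at hl''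
          exact lt_irrefl _ hl''
        · intro l'' hl'' v hv
          exact hex l'' hl'' v hv
      refine pay_once (a := a) (b := b) (x := x) p.1 hpN (hcl p.1) he hK ?_ ?_
      · intro v hv hev
        have := hu1 p.1 v hv hev
        rw [← this]
      · intro v hv
        exact hpr v hv
  have c8 : Bs.card ≤ PAY.card * V.card + PAY.card * V.card := by
    have h1 : Bs ⊆ (PAY ×ˢ V) ∪ (Bs.filter fun p => ∃ p' ∈ Ω, f2 p' = f1 p ∧ p'.1 ∈ PAY) := by
      intro p hp
      rw [Finset.mem_union]
      rcases payB p hp with h | h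
      · left
        rw [Finset.mem_product]
        refine ⟨h, ?_⟩
        have := QΩ (Finset.mem_filter.1 (Finset.mem_filter.1 hp).1).1
        rw [hΩ, Finset.mem_product] at this
        exact this.2
      · right
        exact Finset.mem_filter.2 ⟨hp, h⟩
    refine (Finset.card_le_card h1).trans ((Finset.card_union_le _ _).trans ?_)
    refine Nat.add_le_add (by rw [Finset.card_product]) ?_
    rw [← Finset.card_product]
    let c : Fin s × ℕ → Fin s × ℕ := fun p =>
      if h : ∃ p' ∈ Ω, f2 p' = f1 p ∧ p'.1 ∈ PAY then h.choose else p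
    have hc : ∀ p, (∃ p' ∈ Ω, f2 p' = f1 p ∧ p'.1 ∈ PAY) →
        c p ∈ Ω ∧ f2 (c p) = f1 p ∧ (c p).1 ∈ PAY := by
      intro p hp
      have : c p = hp.choose := by simp only [c]; rw [dif_pos hp]
      rw [this]
      exact hp.choose_spec
    refine Finset.card_le_card_of_injOn c ?_ ?_
    · intro p hp
      obtain ⟨h2, h3⟩ := Finset.mem_filter.1 hp
      obtain ⟨h4, -, h5⟩ := hc p h3
      rw [Finset.mem_coe, Finset.mem_product]
      rw [hΩ, Finset.mem_product] at h4
      exact ⟨h5, h4.2⟩
    · intro p hp p' hp' he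
      obtain ⟨h2, h3⟩ := Finset.mem_filter.1 hp
      obtain ⟨h2', h3'⟩ := Finset.mem_filter.1 hp'
      obtain ⟨-, h4, -⟩ := hc p h3
      obtain ⟨-, h4', -⟩ := hc p' h3'
      have h6 : f1 p = f1 p' := by rw [← h4, ← h4', he]
      have h7 := (memQ p').1 (Finset.mem_filter.1 (Finset.mem_filter.1 h2').1).1
      have := uniq1 p (Finset.mem_filter.1 h2).1 p'.1 p'.2 h7.1 h6.symm
      exact this.symm
  -- private pairs of tokens which do not pay
  have privI : ∀ l : Fin s, l ∉ PAY →
      8 * (A.filter fun p => p.1 = l).card ≤ V.card := by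
    intro l hl
    have hnp : ∀ v < 2 * N, ∀ i ≤ 2 * N, ∀ j ≤ 2 * N,
        ¬ DetEv (prog a g) (prog b g) (Kof (prog a g) (prog b g) (2 * N) x y l) (x l) v i j y := by
      intro v hv i hi j hj hd
      apply hl
      rw [hPAY, Finset.mem_filter]
      exact ⟨Finset.mem_univ _, v, hv, i, hi, j, hj, Or.inl hd⟩
    set I := (A.filter fun p => p.1 = l).image Prod.snd with hI
    have hIc : I.card = (A.filter fun p => p.1 = l).card := by
      refine Finset.card_image_of_injOn ?_
      intro p hp p' hp' he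
      have h1 := (Finset.mem_filter.1 hp).2
      have h2 := (Finset.mem_filter.1 hp').2
      exact Prod.ext (h1.trans h2.symm) he
    have hIA : ∀ v ∈ I, (l, v) ∈ A := by
      intro v hv
      obtain ⟨p, hp, rfl⟩ := Finset.mem_image.1 hv
      obtain ⟨h1, h2⟩ := Finset.mem_filter.1 hp
      rw [← h2]; exact h1
    have hex : ∀ v ∈ I, ∃ v' < N, f2 (l, v') = f1 (l, v) := fun v hv =>
      (Finset.mem_filter.1 (hIA v hv)).2
    let φ : ℕ → ℕ := fun v => if h : ∃ v' < N, f2 (l, v') = f1 (l, v) then h.choose else 0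
    have hφ : ∀ v ∈ I, φ v < N ∧ f2 (l, φ v) = f1 (l, v) := by
      intro v hv
      have h1 := hex v hv
      have : φ v = h1.choose := by simp only [φ]; rw [dif_pos h1]
      rw [this]
      exact h1.choose_spec
    -- data of an element of I
    have dat : ∀ v ∈ I, ∃ m m', v < N ∧ g v = some m ∧ g (φ v) = some m' ∧
        pos (prog a g) y 0 (x l) (2 * v + 1) ≠ pos (prog b g) y 0 (x l) (2 * v + 1) ∧
        ed y m' (pos (prog b g) y 0 (x l) (2 * φ v + 1)) =
          ed y m (pos (prog a g) y 0 (x l) (2 * v + 1)) ∧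
        (∀ l' v', v' < N → f1 (l', v') =
          some (ed y m (pos (prog a g) y 0 (x l) (2 * v + 1))) → (l', v') = (l, v)) ∧
        (∀ l' v', v' < N → f2 (l', v') =
          some (ed y m (pos (prog a g) y 0 (x l) (2 * v + 1))) → (l', v') = (l, φ v)) ∧
        ed y m (pos (prog a g) y 0 (x l) (2 * v + 1)) ∉
          Kof (prog a g) (prog b g) (2 * N) x y l := by
      intro v hv
      have hvA := hIA v hv
      have hv2 := (Finset.mem_filter.1 hvA).1
      obtain ⟨hvN, hvg, hvs⟩ := (memQ _).1 (Finset.mem_filter.1 hv2).1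
      obtain ⟨m, hm⟩ := Option.ne_none_iff_exists'.1 hvg
      simp only at hvN hm hvs
      have h1 : f1 (l, v) = some (ed y m (pos (prog a g) y 0 (x l) (2 * v + 1))) := by
        rw [hf1]; exact eo_eq_some.2 ⟨m, hm, rfl⟩
      obtain ⟨hφ1, hφ2⟩ := hφ v hv
      have h2 := hφ2
      rw [h1, hf2] at h2
      obtain ⟨m', hm', hed⟩ := eo_eq_some.1 h2
      have hu1 := uniq1 _ hv2
      have hu2 := uniq2 _ hv2
      rw [h1] at hu1 hu2
      have hu2' : ∀ l' v', v' < N → f2 (l', v') =
          some (ed y m (pos (prog a g) y 0 (x l) (2 * v + 1))) → (l', v') = (l, φ v) := by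
        intro l' v' hv' he'
        exact hu2 l' v' l (φ v) hv' hφ1 he' (by rw [hφ2, h1])
      refine ⟨m, m', hvN, hm, hm', hvs, hed, hu1, hu2', ?_⟩
      refine not_mem_Kof l ?_ ?_
      · intro l'' hl'' v'' hv'' hev
        have := hu1 l'' v'' hv'' hev
        simp only [Prod.mk.injEq] at this
        rw [this.1] at hl''
        exact lt_irrefl _ hl''
      · intro l'' hl'' v'' hv'' hev
        have := hu2' l'' v'' hv'' hev
        simp only [Prod.mk.injEq] at this
        rw [this.1] at hl''
        exact lt_irrefl _ hl''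
    -- same letter
    have slet : ∀ v ∈ I, g (φ v) = g v := by
      intro v hv
      obtain ⟨m, m', hvN, hm, hm', hvs, hed, hu1, hu2, hK⟩ := dat v hv
      obtain ⟨hφ1, hφ2⟩ := hφ v hv
      obtain ⟨j, σ⟩ := m
      obtain ⟨j', σ'⟩ := m'
      have hjj : j' = j := by
        have := congrArg Prod.fst hed
        simpa [ed] using this
      subst hjj
      rw [hm, hm']
      by_contra hne
      have hσ : σ' ≠ σ := fun h => hne (by rw [h])
      obtain ⟨h1, -⟩ := opp_dir hσ hed
      refine hnp (2 * v + 1) (by omega) (2 * v + 2) (by omega) (2 * φ v + 1) (by omega) ?_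
      refine det_prog hm (by omega) hK ?_ ?_ ?_
      · intro v' hv' hne' m'' hm'' heq
        have := hu1 l v' (by omega) (by rw [hf1]; exact eo_eq_some.2 ⟨m'', hm'', heq⟩)
        simp only [Prod.mk.injEq, true_and] at this
        exact hne' this
      · intro v' hv' m'' hm'' heq
        have := hu2 l v' (by omega) (by rw [hf2]; exact eo_eq_some.2 ⟨m'', hm'', heq⟩)
        simp only [Prod.mk.injEq, true_and] at this
        omega
      · rw [pos_odd_some hm, h1]
    have spos : ∀ v ∈ I, pos (prog b g) y 0 (x l) (2 * φ v + 1) =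
        pos (prog a g) y 0 (x l) (2 * v + 1) := by
      intro v hv
      obtain ⟨m, m', hvN, hm, hm', hvs, hed, -⟩ := dat v hv
      have h1 := slet v hv
      rw [hm, hm'] at h1
      obtain rfl : m' = m := Option.some_injective _ h1
      exact same_dir hed
    have hmono : StrictMonoOn φ (I : Set ℕ) := by
      intro v hv w hw hvw
      have hv' : v ∈ I := hv
      have hw' : w ∈ I := hw
      obtain ⟨m, m', hvN, hm, hm', hvs, hed, hu1, hu2, hK⟩ := dat v hv'
      obtain ⟨k, k', hwN, hk, -⟩ := dat w hw'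
      obtain ⟨hφ1, hφ2⟩ := hφ v hv'
      obtain ⟨hψ1, hψ2⟩ := hφ w hw'
      by_contra hcon
      have hle : φ w ≤ φ v := not_lt.1 hcon
      have hne : φ w ≠ φ v := by
        intro h
        have h1 : f1 (l, w) = f1 (l, v) := by rw [← hφ2, ← hψ2, h]
        have h2 : f1 (l, v) = some (ed y m (pos (prog a g) y 0 (x l) (2 * v + 1))) := by
          rw [hf1]; exact eo_eq_some.2 ⟨m, hm, rfl⟩
        have := hu1 l w hwN (by rw [h1, h2])
        simp only [Prod.mk.injEq, true_and] at this
        omega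
      have hlt : φ w < φ v := lt_of_le_of_ne hle hne
      refine hnp (2 * v + 1) (by omega) (2 * w + 1) (by omega) (2 * φ w + 1) (by omega) ?_
      refine det_prog hm (by omega) hK ?_ ?_ (spos w hw').symm
      · intro v' hv' hne' m'' hm'' heq
        have := hu1 l v' (by omega) (by rw [hf1]; exact eo_eq_some.2 ⟨m'', hm'', heq⟩)
        simp only [Prod.mk.injEq, true_and] at this
        exact hne' this
      · intro v' hv' m'' hm'' heq
        have := hu2 l v' (by omega) (by rw [hf2]; exact eo_eq_some.2 ⟨m'', hm'', heq⟩)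
        simp only [Prod.mk.injEq, true_and] at this
        omega
    rw [← hIc]
    refine hpat I ?_ φ hmono ?_
    · intro v hv
      obtain ⟨m, m', hvN, -⟩ := dat v hv
      exact Finset.mem_range.2 hvN
    · intro v hv
      obtain ⟨m, m', hvN, hm, hm', hvs, hed, -⟩ := dat v hv
      refine ⟨(hφ v hv).1, ?_, by rw [hm]; simp, slet v hv⟩
      intro h
      apply hvs
      have := spos v hv
      rw [h] at this
      exact this.symm
  have c9 : 8 * A.card ≤ 8 * (PAY.card * V.card) + s * V.card := by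
    have e1 : A.card = ∑ l : Fin s, (A.filter fun p => p.1 = l).card :=
      Finset.card_eq_sum_card_fiberwise fun p _ => Finset.mem_univ _
    have e2 : ∀ l : Fin s, 8 * (A.filter fun p => p.1 = l).card ≤
        (if l ∈ PAY then 8 * V.card else 0) + V.card := by
      intro l
      by_cases hl : l ∈ PAY
      · rw [if_pos hl]
        have : (A.filter fun p => p.1 = l).card ≤ V.card := by
          refine Finset.card_le_card_of_injOn Prod.snd ?_ ?_
          · intro p hp
            have h1 := QΩ (Finset.mem_filter.1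
              (Finset.mem_filter.1 (Finset.mem_filter.1 hp).1).1).1
            rw [hΩ, Finset.mem_product] at h1
            exact h1.2
          · intro p hp p' hp' he
            have h1 := (Finset.mem_filter.1 hp).2
            have h2 := (Finset.mem_filter.1 hp').2
            exact Prod.ext (h1.trans h2.symm) he
        omega
      · rw [if_neg hl]
        have := privI l hl
        omega
    rw [e1, Finset.mul_sum]
    refine (Finset.sum_le_sum fun l _ => e2 l).trans ?_
    rw [Finset.sum_add_distrib, Finset.sum_const, Finset.card_univ, Fintype.card_fin,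
      smul_eq_mul, ← Finset.sum_filter, Finset.sum_const, smul_eq_mul]
    have : (Finset.univ.filter fun l => l ∈ PAY) = PAY := by
      ext l; simp
    rw [this]
    refine le_of_eq ?_
    ring
  have c10 : 5 * (s * V.card) ≤ 96 * (PAY.card * V.card) := by omega
  have c11 : (5 * s) * V.card ≤ (96 * PAY.card) * V.card := by
    calc (5 * s) * V.card = 5 * (s * V.card) := by ring
      _ ≤ 96 * (PAY.card * V.card) := c10
      _ = (96 * PAY.card) * V.card := by ring
  exact Nat.le_of_mul_le_mul_right c11 hN'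

end det

open Classical in
/-- **closing lemma for many tokens (FCL)**. Fixed constants `a`, `b`, one pattern `g` without a long
increasing matching, any starting points: the worlds in which all tokens close, both path systems
are fresh and many pairs are split are rare. -/
theorem fcl (q n N s : ℕ) (g : ℕ → Option (Lt q)) (a b : ℕ → Perm (Fin n)) (x : Fin s → Fin n)
    (hN' : 0 < ((Finset.range N).filter fun v => g v ≠ none).card)
    (hpat : ∀ I ⊆ Finset.range N, ∀ φ : ℕ → ℕ, StrictMonoOn φ (I : Set ℕ) →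
      (∀ v ∈ I, φ v < N ∧ φ v ≠ v ∧ g v ≠ none ∧ g (φ v) = g v) →
      8 * I.card ≤ ((Finset.range N).filter fun v => g v ≠ none).card)
    (m : ℕ) (hm : 24 * m ≤ s) :
    ((Finset.univ : Finset (World q n)).filter fun y =>
      (∀ l, pos (prog a g) y 0 (x l) (2 * N) = pos (prog b g) y 0 (x l) (2 * N)) ∧
      31 * (s * ((Finset.range N).filter fun v => g v ≠ none).card) ≤
        32 * (Finset.univ.biUnion fun l : Fin s => usedSet (prog a g) y 0 (x l) (2 * N)).card ∧
      31 * (s * ((Finset.range N).filter fun v => g v ≠ none).card) ≤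
        32 * (Finset.univ.biUnion fun l : Fin s => usedSet (prog b g) y 0 (x l) (2 * N)).card ∧
      3 * (s * ((Finset.range N).filter fun v => g v ≠ none).card) ≤
        8 * (((Finset.univ : Finset (Fin s)) ×ˢ Finset.range N).filter fun p => g p.2 ≠ none ∧
          pos (prog a g) y 0 (x p.1) (2 * p.2 + 1) ≠
            pos (prog b g) y 0 (x p.1) (2 * p.2 + 1)).card).card *
      (n - 4 * s * N) ^ m ≤
    2 ^ s * (2 * (2 * N) * (2 * N + 1) ^ 2) ^ m * n.factorial ^ q := by
  classical
  have h := pay_rare (prog a g) (prog b g) (2 * N) x m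
  have e1 : 2 * (2 * N) * s = 4 * s * N := by ring
  have e2 : Fintype.card (World q n) = n.factorial ^ q := by
    simp [World, Fintype.card_perm]
  rw [e1, e2] at h
  refine le_trans (Nat.mul_le_mul (Finset.card_le_card ?_) le_rfl) h
  intro y hy
  rw [Finset.mem_filter] at hy ⊢
  refine ⟨Finset.mem_univ _, ?_⟩
  obtain ⟨-, h1, h2, h3, h4⟩ := hy
  have h5 := many_pay hN' hpat h1 h2 h3 h4
  have h6 : 5 * s ≤ 96 * (Finset.univ.filter fun l : Fin s =>
      Pay (prog a g) (prog b g) (2 * N) x l y).card := by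
    convert h5
  omega

end Pool.Agent.Helper46.FS
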