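import Pool.Agent.Helper46.FS.Det

/-! Project FS (MP_75608d_al), closing lemma for many tokens, part 2: the tokens are treated one after
the other, every paying token costs a factor `M / (n - 2 L s)`. -/

namespace Pool.Agent.Helper46.FS

open Equiv Pool.Agent.Helper4.FS

variable {q n : ℕ}

lemma lp_agree {y y' : World q n} {m : Lt q} {p : Fin n}
    (h : y' (ed y m p).1 (ed y m p).2 = y (ed y m p).1 (ed y m p).2) :
    Pool.Agent.Helper4.FS.lp y' m p = Pool.Agent.Helper4.FS.lp y m p ∧ ed y' m p = ed y m p := by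
  obtain ⟨j, σ⟩ := m
  cases σ
  · simp only [ed, Bool.false_eq_true, if_false] at h
    have h3 : y j ((y j)⁻¹ p) = p := by simp
    have h2 : (y' j)⁻¹ p = (y j)⁻¹ p := by
      rw [Perm.inv_eq_iff_eq, h, h3]
    simp only [Pool.Agent.Helper4.FS.lp, ed, Bool.false_eq_true, if_false, h2, and_self]
  · simp only [ed, if_true] at h
    simp only [Pool.Agent.Helper4.FS.lp, ed, if_true, h, and_self]

lemma path_agree {P : ℕ → Stp q n} {y y' : World q n} {x : Fin n} {L : ℕ}
    (h : ∀ e ∈ usedSet P y 0 x L, y' e.1 e.2 = y e.1 e.2) {t : ℕ} (ht : t ≤ L) :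
    pos P y' 0 x t = pos P y 0 x t := by
  induction t with
  | zero => rfl
  | succ t ih =>
    rw [pos_succ, pos_succ, ih (by omega), zero_add]
    rcases hs : P t with c | m
    · rfl
    · refine (lp_agree (h _ ?_)).1
      rw [mem_usedSet]
      exact ⟨t, by omega, m, by rw [zero_add]; exact hs, rfl⟩

lemma ed_agree {P : ℕ → Stp q n} {y y' : World q n} {x : Fin n} {L : ℕ}
    (h : ∀ e ∈ usedSet P y 0 x L, y' e.1 e.2 = y e.1 e.2) {k : ℕ} (hk : k < L) {m : Lt q}
    (hm : P k = Sum.inr m) : ed y' m (pos P y' 0 x k) = ed y m (pos P y 0 x k) := by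
  rw [path_agree h hk.le]
  refine (lp_agree (h _ ?_)).2
  rw [mem_usedSet]
  exact ⟨k, hk, m, by rw [zero_add]; exact hm, rfl⟩

lemma usedSet_agree {P : ℕ → Stp q n} {y y' : World q n} {x : Fin n} {L : ℕ}
    (h : ∀ e ∈ usedSet P y 0 x L, y' e.1 e.2 = y e.1 e.2) :
    usedSet P y' 0 x L = usedSet P y 0 x L := by
  ext e
  rw [mem_usedSet, mem_usedSet]
  constructor
  · rintro ⟨k, hk, m, hm, he⟩
    refine ⟨k, hk, m, hm, ?_⟩
    rw [zero_add] at hm
    rw [← ed_agree h hk hm]; exact he
  · rintro ⟨k, hk, m, hm, he⟩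
    refine ⟨k, hk, m, hm, ?_⟩
    rw [zero_add] at hm
    rw [ed_agree h hk hm]; exact he

lemma detEv_congr {P1 P2 : ℕ → Stp q n} {K : Finset (Fin q × Fin n)} {x : Fin n} {v i j L : ℕ}
    {y y' : World q n} (h1 : ∀ e ∈ usedSet P1 y 0 x L, y' e.1 e.2 = y e.1 e.2)
    (h2 : ∀ e ∈ usedSet P2 y 0 x L, y' e.1 e.2 = y e.1 e.2) (hv : v < L) (hi : i ≤ L) (hj : j ≤ L)
    (h : DetEv P1 P2 K x v i j y) : DetEv P1 P2 K x v i j y' := by
  obtain ⟨hvi, m, hm, hK, ha, hb, hc⟩ := h
  refine ⟨hvi, m, hm, ?_, ?_, ?_, ?_⟩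
  · rw [ed_agree h1 hv hm]; exact hK
  · intro k hk hkv m' hm'
    rw [ed_agree h1 hv hm, ed_agree h1 (by omega) hm']
    exact ha k hk hkv m' hm'
  · intro k hk m' hm'
    rw [ed_agree h1 hv hm, ed_agree h2 (by omega) hm']
    exact hb k hk m' hm'
  · rw [path_agree h1 hi, path_agree h2 hj]; exact hc

section tokens

variable (P1 P2 : ℕ → Stp q n) (L : ℕ) {s : ℕ} (x : Fin s → Fin n)

/-- the edges used by one token -/
noncomputable def tk (y : World q n) (x0 : Fin n) : Finset (Fin q × Fin n) :=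
  usedSet P1 y 0 x0 L ∪ usedSet P2 y 0 x0 L

/-- the edges used by the tokens with numbers less than `l` -/
noncomputable def Kof (y : World q n) (l : ℕ) : Finset (Fin q × Fin n) :=
  (Finset.univ.filter fun l' : Fin s => l'.val < l).biUnion fun l' => tk P1 P2 L y (x l')

/-- the token `l` pays -/
def Pay (l : Fin s) (y : World q n) : Prop :=
  ∃ v < L, ∃ i ≤ L, ∃ j ≤ L, DetEv P1 P2 (Kof P1 P2 L x y l) (x l) v i j y ∨
    DetEv P2 P1 (Kof P1 P2 L x y l) (x l) v i j y

variable {P1 P2 L x}

lemma mem_Kof {y : World q n} {l : ℕ} {e : Fin q × Fin n} :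
    e ∈ Kof P1 P2 L x y l ↔ ∃ l' : Fin s, l'.val < l ∧ e ∈ tk P1 P2 L y (x l') := by
  simp [Kof]

lemma Kof_mono {y : World q n} {l l' : ℕ} (h : l ≤ l') :
    Kof P1 P2 L x y l ⊆ Kof P1 P2 L x y l' := by
  intro e he
  rw [mem_Kof] at he ⊢
  obtain ⟨k, hk, hk2⟩ := he
  exact ⟨k, by omega, hk2⟩

lemma Kof_card (y : World q n) (l : ℕ) : (Kof P1 P2 L x y l).card ≤ l * (2 * L) := by
  unfold Kof
  refine (Finset.card_biUnion_le_card_mul _ _ (2 * L) ?_).trans (Nat.mul_le_mul ?_ le_rfl)
  · intro a _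
    refine (Finset.card_union_le _ _).trans ?_
    have h1 := card_usedSet_le P1 y 0 (x a) L
    have h2 := card_usedSet_le P2 y 0 (x a) L
    omega
  · have : ((Finset.univ.filter fun l' : Fin s => l'.val < l)).card ≤ (Finset.range l).card := by
      refine Finset.card_le_card_of_injOn (fun l' => l'.val) ?_ ?_
      · intro a ha
        simpa using ha
      · intro a _ b _ h
        exact Fin.ext h
    simpa using this

lemma Om_anti {K K' : Finset (Fin q × Fin n)} (h : K ⊆ K') (y : World q n) :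
    Om K' y ⊆ Om K y := by
  intro y' hy'
  rw [mem_Om] at hy' ⊢
  exact fun e he => hy' e (h he)

lemma tok_agree {y y' : World q n} {l : ℕ} (h : y' ∈ Om (Kof P1 P2 L x y l) y) {l' : Fin s}
    (hl : l'.val < l) :
    (∀ e ∈ usedSet P1 y 0 (x l') L, y' e.1 e.2 = y e.1 e.2) ∧
    (∀ e ∈ usedSet P2 y 0 (x l') L, y' e.1 e.2 = y e.1 e.2) := by
  rw [mem_Om] at h
  constructor
  · intro e he
    exact h e (mem_Kof.2 ⟨l', hl, Finset.mem_union_left _ he⟩)
  · intro e he
    exact h e (mem_Kof.2 ⟨l', hl, Finset.mem_union_right _ he⟩)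

lemma Kof_agree {y y' : World q n} {l : ℕ} (h : y' ∈ Om (Kof P1 P2 L x y l) y) :
    Kof P1 P2 L x y' l = Kof P1 P2 L x y l := by
  unfold Kof
  refine Finset.biUnion_congr rfl fun l' hl' => ?_
  have hl : l'.val < l := by simpa using hl'
  obtain ⟨h1, h2⟩ := tok_agree h hl
  rw [tk, tk, usedSet_agree h1, usedSet_agree h2]

lemma pay_of {y y' : World q n} {l : Fin s} (h : y' ∈ Om (Kof P1 P2 L x y (l + 1)) y)
    (hp : Pay P1 P2 L x l y) : Pay P1 P2 L x l y' := by
  obtain ⟨v, hv, i, hi, j, hj, hd⟩ := hp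
  have hK : Kof P1 P2 L x y' l = Kof P1 P2 L x y l :=
    Kof_agree (Om_anti (Kof_mono (Nat.le_succ _)) y h)
  obtain ⟨h1, h2⟩ := tok_agree h (l' := l) (Nat.lt_succ_self _)
  refine ⟨v, hv, i, hi, j, hj, ?_⟩
  rw [hK]
  rcases hd with hd | hd
  · exact Or.inl (detEv_congr h1 h2 hv hi hj hd)
  · exact Or.inr (detEv_congr h2 h1 hv hi hj hd)

lemma Om_symm {K : Finset (Fin q × Fin n)} {y y' : World q n} (h : y' ∈ Om K y) :
    y ∈ Om K y' := by
  rw [mem_Om] at h ⊢
  exact fun e he => (h e he).symm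

lemma pay_iff {y y' : World q n} {l : Fin s} (h : y' ∈ Om (Kof P1 P2 L x y (l + 1)) y) :
    Pay P1 P2 L x l y' ↔ Pay P1 P2 L x l y := by
  refine ⟨fun hp => pay_of ?_ hp, pay_of h⟩
  rw [Kof_agree h]
  exact Om_symm h

variable (P1 P2 L x)

/-- the known part of the world before token `l` -/
noncomputable def key (l : ℕ) (y : World q n) : Finset ((Fin q × Fin n) × Fin n) :=
  (Kof P1 P2 L x y l).image fun e => (e, y e.1 e.2)

variable {P1 P2 L x}

lemma key_eq_iff {l : ℕ} {y y' : World q n} :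
    key P1 P2 L x l y' = key P1 P2 L x l y ↔ y' ∈ Om (Kof P1 P2 L x y l) y := by
  constructor
  · intro h
    rw [mem_Om]
    intro e he
    have h1 : (e, y e.1 e.2) ∈ key P1 P2 L x l y := Finset.mem_image.2 ⟨e, he, rfl⟩
    rw [← h] at h1
    obtain ⟨e', -, he'⟩ := Finset.mem_image.1 h1
    simp only [Prod.mk.injEq] at he'
    obtain ⟨ha, hb⟩ := he'
    subst ha
    exact hb
  · intro h
    unfold key
    rw [Kof_agree h]
    refine Finset.image_congr ?_
    intro e he
    rw [mem_Om] at h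
    simp only [Prod.mk.injEq, true_and]
    exact h e he

open Classical in
lemma pay_card (l : Fin s) (y : World q n) :
    ((Om (Kof P1 P2 L x y l) y).filter (Pay P1 P2 L x l)).card * (n - 2 * L * s) ≤
      (2 * L * (L + 1) ^ 2) * (Om (Kof P1 P2 L x y l) y).card := by
  classical
  set K := Kof P1 P2 L x y l with hK
  have hc : ∀ i ≤ L, ∀ j ≤ L, n - 2 * L * s ≤ n - (K.card + i + j) := by
    intro i hi j hj
    have h1 : K.card ≤ l.val * (2 * L) := Kof_card y l
    have h2 : l.val + 1 ≤ s := l.isLt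
    have h3 : (l.val + 1) * (2 * L) ≤ s * (2 * L) := Nat.mul_le_mul h2 le_rfl
    have h4 : K.card + i + j ≤ 2 * L * s := by nlinarith
    omega
  let I := Finset.range L ×ˢ (Finset.range (L + 1) ×ˢ Finset.range (L + 1))
  have hsub : (Om K y).filter (Pay P1 P2 L x l) ⊆ I.biUnion (fun t =>
      (Om K y).filter (DetEv P1 P2 K (x l) t.1 t.2.1 t.2.2) ∪
      (Om K y).filter (DetEv P2 P1 K (x l) t.1 t.2.1 t.2.2)) := by
    intro y' hy'
    rw [Finset.mem_filter] at hy'
    obtain ⟨hy', v, hv, i, hi, j, hj, hd⟩ := hy'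
    have hKK : Kof P1 P2 L x y' l = K := Kof_agree hy'
    rw [hKK] at hd
    rw [Finset.mem_biUnion]
    refine ⟨(v, i, j), ?_, ?_⟩
    · simp only [I, Finset.mem_product, Finset.mem_range]
      omega
    · rw [Finset.mem_union, Finset.mem_filter, Finset.mem_filter]
      rcases hd with hd | hd
      · exact Or.inl ⟨hy', hd⟩
      · exact Or.inr ⟨hy', hd⟩
  have hI : I.card = L * (L + 1) ^ 2 := by
    simp only [I, Finset.card_product, Finset.card_range]; ring
  calc ((Om K y).filter (Pay P1 P2 L x l)).card * (n - 2 * L * s)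
      ≤ (∑ t ∈ I, (((Om K y).filter (DetEv P1 P2 K (x l) t.1 t.2.1 t.2.2)).card +
        ((Om K y).filter (DetEv P2 P1 K (x l) t.1 t.2.1 t.2.2)).card)) * (n - 2 * L * s) := by
        refine Nat.mul_le_mul ?_ le_rfl
        refine (Finset.card_le_card hsub).trans (Finset.card_biUnion_le.trans ?_)
        exact Finset.sum_le_sum fun t _ => Finset.card_union_le _ _
    _ ≤ ∑ _t ∈ I, 2 * (Om K y).card := by
        rw [Finset.sum_mul]
        refine Finset.sum_le_sum fun t ht => ?_
        simp only [I, Finset.mem_product, Finset.mem_range] at ht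
        have h0 := hc t.2.1 (by omega) t.2.2 (by omega)
        have h1 := det_card P1 P2 K y (x l) t.1 t.2.1 t.2.2
        have h2 := det_card P2 P1 K y (x l) t.1 t.2.1 t.2.2
        have h3 := (Nat.mul_le_mul (le_refl ((Om K y).filter
          (DetEv P1 P2 K (x l) t.1 t.2.1 t.2.2)).card) h0).trans h1
        have h4 := (Nat.mul_le_mul (le_refl ((Om K y).filter
          (DetEv P2 P1 K (x l) t.1 t.2.1 t.2.2)).card) h0).trans h2
        rw [Nat.add_mul]
        omega
    _ = (2 * L * (L + 1) ^ 2) * (Om K y).card := by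
        rw [Finset.sum_const, hI, smul_eq_mul]; ring

open Classical in
/-- the worlds in which the tokens of `B` with numbers less than `l` pay -/
noncomputable def FF (P1 P2 : ℕ → Stp q n) (L : ℕ) {s : ℕ} (x : Fin s → Fin n) (B : Finset (Fin s))
    (l : ℕ) : Finset (World q n) :=
  Finset.univ.filter fun y => ∀ l' ∈ B, l'.val < l → Pay P1 P2 L x l' y

lemma mem_FF {B : Finset (Fin s)} {l : ℕ} {y : World q n} :
    y ∈ FF P1 P2 L x B l ↔ ∀ l' ∈ B, l'.val < l → Pay P1 P2 L x l' y := by
  simp [FF]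

lemma seq_step (B : Finset (Fin s)) (l : Fin s) (hl : l ∈ B) :
    (FF P1 P2 L x B (l + 1)).card * (n - 2 * L * s) ≤
      (2 * L * (L + 1) ^ 2) * (FF P1 P2 L x B l).card := by
  classical
  set S := FF P1 P2 L x B l with hS
  have hS' : FF P1 P2 L x B (l + 1) = S.filter (Pay P1 P2 L x l) := by
    ext y
    rw [Finset.mem_filter, mem_FF, mem_FF]
    constructor
    · intro h
      exact ⟨fun l' h1 h2 => h l' h1 (by omega), h l hl (by omega)⟩
    · rintro ⟨h1, h2⟩ l' h3 h4
      by_cases h5 : l'.val < l.val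
      · exact h1 l' h3 h5
      · have : l' = l := Fin.ext (by omega)
        rw [this]; exact h2
  rw [hS']
  have hfib : ∀ y ∈ S, S.filter (fun y' => key P1 P2 L x l y' = key P1 P2 L x l y) =
      Om (Kof P1 P2 L x y l) y := by
    intro y hy
    ext y'
    rw [Finset.mem_filter, key_eq_iff]
    refine ⟨fun h => h.2, fun h => ⟨?_, h⟩⟩
    rw [mem_FF] at hy ⊢
    intro l' h1 h2
    rw [pay_iff (Om_anti (Kof_mono (by omega)) y h)]
    exact hy l' h1 h2
  have e1 : (S.filter (Pay P1 P2 L x l)).card = ∑ κ ∈ S.image (key P1 P2 L x l),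
      ((S.filter (Pay P1 P2 L x l)).filter (fun y' => key P1 P2 L x l y' = κ)).card :=
    Finset.card_eq_sum_card_fiberwise fun y hy =>
      Finset.mem_image_of_mem _ (Finset.mem_filter.1 hy).1
  have e2 : S.card = ∑ κ ∈ S.image (key P1 P2 L x l),
      (S.filter (fun y' => key P1 P2 L x l y' = κ)).card :=
    Finset.card_eq_sum_card_fiberwise fun y hy => Finset.mem_image_of_mem _ hy
  rw [e1, e2, Finset.sum_mul, Finset.mul_sum]
  refine Finset.sum_le_sum fun κ hκ => ?_
  obtain ⟨y, hy, rfl⟩ := Finset.mem_image.1 hκ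
  rw [Finset.filter_filter]
  have e3 : S.filter (fun y' => Pay P1 P2 L x l y' ∧ key P1 P2 L x l y' = key P1 P2 L x l y) =
      (Om (Kof P1 P2 L x y l) y).filter (Pay P1 P2 L x l) := by
    rw [← hfib y hy, Finset.filter_filter]
    refine Finset.filter_congr fun y' _ => ?_
    exact and_comm
  rw [e3, hfib y hy]
  exact pay_card l y

lemma seq_skip (B : Finset (Fin s)) (l : Fin s) (hl : l ∉ B) :
    FF P1 P2 L x B (l + 1) = FF P1 P2 L x B l := by
  ext y
  rw [mem_FF, mem_FF]
  constructor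
  · intro h l' h1 h2
    exact h l' h1 (by omega)
  · intro h l' h1 h2
    refine h l' h1 ?_
    rcases Nat.lt_or_ge l'.val l.val with h3 | h3
    · exact h3
    · exfalso
      apply hl
      have : l' = l := Fin.ext (by omega)
      rw [← this]; exact h1

lemma seq_prod (B : Finset (Fin s)) (l : ℕ) (hl : l ≤ s) :
    (FF P1 P2 L x B l).card * (n - 2 * L * s) ^ (B.filter fun l' => l'.val < l).card ≤
      (2 * L * (L + 1) ^ 2) ^ (B.filter fun l' => l'.val < l).card * Fintype.card (World q n) := by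
  classical
  induction l with
  | zero =>
    simp only [Nat.not_lt_zero, Finset.filter_false, Finset.card_empty, pow_zero, mul_one, one_mul]
    exact Finset.card_le_univ _
  | succ l ih =>
    have ih' := ih (by omega)
    set l0 : Fin s := ⟨l, hl⟩ with hl0
    by_cases hB : l0 ∈ B
    · have e1 : (B.filter fun l' => l'.val < l + 1) =
          insert l0 (B.filter fun l' => l'.val < l) := by
        ext a
        simp only [Finset.mem_filter, Finset.mem_insert]
        constructor
        · rintro ⟨h1, h2⟩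
          by_cases h3 : a.val < l
          · exact Or.inr ⟨h1, h3⟩
          · left; exact Fin.ext (by simp [hl0]; omega)
        · rintro (h1 | ⟨h1, h2⟩)
          · rw [h1]; exact ⟨hB, by simp [hl0]⟩
          · exact ⟨h1, by omega⟩
      have e2 : l0 ∉ (B.filter fun l' => l'.val < l) := by
        simp [hl0]
      rw [e1, Finset.card_insert_of_notMem e2]
      set k := (B.filter fun l' => l'.val < l).card
      have h1 : (FF P1 P2 L x B (l + 1)).card * (n - 2 * L * s) ≤
          (2 * L * (L + 1) ^ 2) * (FF P1 P2 L x B l).card := seq_step B l0 hB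
      calc (FF P1 P2 L x B (l + 1)).card * (n - 2 * L * s) ^ (k + 1)
          = ((FF P1 P2 L x B (l + 1)).card * (n - 2 * L * s)) * (n - 2 * L * s) ^ k := by ring
        _ ≤ ((2 * L * (L + 1) ^ 2) * (FF P1 P2 L x B l).card) * (n - 2 * L * s) ^ k :=
            Nat.mul_le_mul h1 le_rfl
        _ = (2 * L * (L + 1) ^ 2) * ((FF P1 P2 L x B l).card * (n - 2 * L * s) ^ k) := by ring
        _ ≤ (2 * L * (L + 1) ^ 2) * ((2 * L * (L + 1) ^ 2) ^ k * Fintype.card (World q n)) :=
            Nat.mul_le_mul le_rfl ih'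
        _ = (2 * L * (L + 1) ^ 2) ^ (k + 1) * Fintype.card (World q n) := by ring
    · have e1 : (B.filter fun l' => l'.val < l + 1) = (B.filter fun l' => l'.val < l) := by
        ext a
        simp only [Finset.mem_filter]
        constructor
        · rintro ⟨h1, h2⟩
          refine ⟨h1, ?_⟩
          by_contra h3
          apply hB
          have : a = l0 := Fin.ext (by simp [hl0]; omega)
          rw [← this]; exact h1
        · rintro ⟨h1, h2⟩
          exact ⟨h1, by omega⟩
      have e2 : FF P1 P2 L x B (l + 1) = FF P1 P2 L x B l := seq_skip B l0 hB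
      rw [e1, e2]
      exact ih'

open Classical in
/-- **paying tokens are rare** -/
theorem pay_rare (P1 P2 : ℕ → Stp q n) (L : ℕ) {s : ℕ} (x : Fin s → Fin n) (m : ℕ) :
    ((Finset.univ : Finset (World q n)).filter fun y =>
      m ≤ (Finset.univ.filter fun l => Pay P1 P2 L x l y).card).card * (n - 2 * L * s) ^ m ≤
      2 ^ s * (2 * L * (L + 1) ^ 2) ^ m * Fintype.card (World q n) := by
  classical
  have hsub : ((Finset.univ : Finset (World q n)).filter fun y =>
      m ≤ (Finset.univ.filter fun l => Pay P1 P2 L x l y).card) ⊆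
      (Finset.powersetCard m (Finset.univ : Finset (Fin s))).biUnion
        (fun B => FF P1 P2 L x B s) := by
    intro y hy
    rw [Finset.mem_filter] at hy
    obtain ⟨B, hB, hBc⟩ := Finset.exists_subset_card_eq hy.2
    rw [Finset.mem_biUnion]
    refine ⟨B, Finset.mem_powersetCard.2 ⟨Finset.subset_univ _, hBc⟩, ?_⟩
    rw [mem_FF]
    intro l hl _
    exact (Finset.mem_filter.1 (hB hl)).2
  have hB : ∀ B ∈ Finset.powersetCard m (Finset.univ : Finset (Fin s)),
      (FF P1 P2 L x B s).card * (n - 2 * L * s) ^ m ≤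
        (2 * L * (L + 1) ^ 2) ^ m * Fintype.card (World q n) := by
    intro B hB
    have h1 := seq_prod (P1 := P1) (P2 := P2) (L := L) (x := x) B s le_rfl
    have h2 : (B.filter fun l' => l'.val < s) = B :=
      Finset.filter_true_of_mem fun a _ => a.isLt
    rw [h2, (Finset.mem_powersetCard.1 hB).2] at h1
    exact h1
  calc _ ≤ (∑ B ∈ Finset.powersetCard m (Finset.univ : Finset (Fin s)),
        (FF P1 P2 L x B s).card) * (n - 2 * L * s) ^ m :=
        Nat.mul_le_mul ((Finset.card_le_card hsub).trans Finset.card_biUnion_le) le_rfl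
    _ ≤ ∑ _B ∈ Finset.powersetCard m (Finset.univ : Finset (Fin s)),
        (2 * L * (L + 1) ^ 2) ^ m * Fintype.card (World q n) := by
        rw [Finset.sum_mul]
        exact Finset.sum_le_sum hB
    _ = s.choose m * ((2 * L * (L + 1) ^ 2) ^ m * Fintype.card (World q n)) := by
        rw [Finset.sum_const, Finset.card_powersetCard, Finset.card_univ, Fintype.card_fin,
          smul_eq_mul]
    _ ≤ 2 ^ s * ((2 * L * (L + 1) ^ 2) ^ m * Fintype.card (World q n)) :=
        Nat.mul_le_mul (Nat.choose_le_two_pow _ _) le_rfl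
    _ = _ := by ring

end tokens

end Pool.Agent.Helper46.FS
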